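import Pool.Agent.Lib.TWLY.E

/-!
# Right translates of a position: filtered polynomials and the chain
-/

set_option autoImplicit false

namespace Pool.Agent.TWLG64

open MvPolynomial
open TWIV.JW (BB sh cz)
open Pool.Agent.H15JM (RVal)
open Pool.Agent.LU1 (VPos)
open Pool.Agent.D2 (Ctx0)
open Pool.Agent.TWM (Gt)
open Pool.Agent.TWLY

universe u

variable {k Ω : Type u} [Field k] [Field Ω] [Algebra k Ω] {v : RVal Ω} {w : Fin 2 → ℝ}

/-- size of the coefficient plus weight of the monomial is at most `d` -/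
def Fil (v : RVal Ω) (w : Fin 2 → ℝ) (d : ℝ) (F : MvPolynomial (Fin 2) Ω) : Prop :=
  ∀ β, v.Ge (wt w β - d) (coeff β F)

theorem wt_zero (w : Fin 2 → ℝ) : wt w 0 = 0 := by simp [wt]

theorem Fil.add {d : ℝ} {F F' : MvPolynomial (Fin 2) Ω} (h : Fil v w d F) (h' : Fil v w d F') :
    Fil v w d (F + F') := fun β => by
  rw [coeff_add]
  exact (h β).add (h' β)

theorem Fil.sub {d : ℝ} {F F' : MvPolynomial (Fin 2) Ω} (h : Fil v w d F) (h' : Fil v w d F') :
    Fil v w d (F - F') := fun β => by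
  rw [coeff_sub]
  exact (h β).sub (h' β)

theorem Fil.mono {d d' : ℝ} {F : MvPolynomial (Fin 2) Ω} (h : Fil v w d F) (hd : d ≤ d') :
    Fil v w d' F := fun β => (h β).mono (by linarith)

theorem Fil.mul {d d' : ℝ} {F F' : MvPolynomial (Fin 2) Ω} (h : Fil v w d F)
    (h' : Fil v w d' F') : Fil v w (d + d') (F * F') := fun β => by
  classical
  rw [coeff_mul]
  refine RVal.Ge.sum _ _ fun q hq => ?_
  rw [Finset.HasAntidiagonal.mem_antidiagonal] at hq
  refine ((h q.1).mul (h' q.2)).mono ?_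
  rw [← hq, wt_add]
  linarith

theorem Fil.C {d : ℝ} {a : Ω} (h : v.Ge (-d) a) : Fil v w d (MvPolynomial.C a) := fun β => by
  classical
  rw [coeff_C]
  split_ifs with h0
  · rw [← h0, wt_zero, zero_sub]
    exact h
  · exact fun h1 => absurd rfl h1

theorem Fil.X (hk : Ctx0 k v) (i : Fin 2) : Fil v w (w i) (X i : MvPolynomial (Fin 2) Ω) :=
  fun β => by
  classical
  rw [coeff_X]
  split_ifs with h0
  · rw [← h0, wt_single, Nat.cast_one, one_mul, sub_self]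
    have := hk.ge 1
    rwa [map_one] at this
  · exact fun h1 => absurd rfl h1

theorem Fil.pow (hk : Ctx0 k v) {d : ℝ} {F : MvPolynomial (Fin 2) Ω} (h : Fil v w d F) (n : ℕ) :
    Fil v w (n * d) (F ^ n) := by
  induction n with
  | zero =>
    rw [pow_zero, Nat.cast_zero, zero_mul, ← C_1]
    refine Fil.C ?_
    have := hk.ge 1
    rwa [map_one, ← neg_zero] at this
  | succ n ih =>
    rw [pow_succ]
    have := ih.mul h
    push_cast
    rwa [add_mul, one_mul]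

theorem Fil.sum {ι : Type*} (S : Finset ι) {d : ℝ} (F : ι → MvPolynomial (Fin 2) Ω)
    (h : ∀ i ∈ S, Fil v w d (F i)) : Fil v w d (∑ i ∈ S, F i) := fun β => by
  rw [coeff_sum]
  exact RVal.Ge.sum _ _ fun i hi => h i hi β

/-! ## the chain -/

section chain

variable {p : ℕ} [Fact p.Prime] [CharP k p] {κ : ℕ → k} {t : ℕ}

omit [Fact p.Prime] [CharP k p] in
theorem coeff_PPΩ (ζ : MvPolynomial (Fin 2) Ω) (β : Ex) :
    coeff β (PP p κ t ζ) = ∑ i ∈ Finset.range (t + 1),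
      algebraMap k Ω (κ i) * coeff β (ζ ^ p ^ (i + 1)) := by
  unfold PP
  rw [coeff_sum]
  refine Finset.sum_congr rfl fun i _ => ?_
  rw [IsScalarTower.algebraMap_apply k Ω (MvPolynomial (Fin 2) Ω), algebraMap_eq, coeff_C_mul]

/-- The infinite chain: no coefficient of `ζ` can be heavy. -/
theorem chain_core (hk : Ctx0 k v) (hκ : κ t ≠ 0) {d b₀ : ℝ} (hd : 0 < d) (hw : ∀ i, 0 ≤ w i)
    {F ζ : MvPolynomial (Fin 2) Ω} (hF : Fil v w d F) (R : ℝ → Prop)
    (hR1 : ∀ (j : ℕ) (ρ ρ' : ℝ), R ρ → ρ' ≤ (p : ℝ) ^ j * ρ → R ρ')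
    (hR2 : ∀ β : Ex, β ≠ 0 → coeff β ζ ≠ 0 → b₀ ≤ (p : ℝ) ^ (t + 1) * wt w β →
      R (v (coeff β ζ)) → Gt v ((p : ℝ) ^ (t + 1) * v (coeff β ζ))
        (coeff (p ^ (t + 1) • β) (PP p κ t ζ + F))) (β : Ex) (hβ0 : β ≠ 0)
    (hβ : coeff β ζ ≠ 0) (hb : b₀ ≤ (p : ℝ) ^ (t + 1) * wt w β) (hR : R (v (coeff β ζ)))
    (hc : d < (p : ℝ) ^ (t + 1) * (wt w β - v (coeff β ζ))) : False := by
  classical
  have : CharP Ω p := charP_of_injective_algebraMap (algebraMap k Ω).injective p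
  have hp : 1 < p := Nat.Prime.one_lt Fact.out
  have hQ : (0 : ℝ) < (p : ℝ) ^ (t + 1) := by positivity
  set S : Finset Ex := {β ∈ ζ.support | β ≠ 0 ∧ b₀ ≤ (p : ℝ) ^ (t + 1) * wt w β ∧
    R (v (coeff β ζ)) ∧ d < (p : ℝ) ^ (t + 1) * (wt w β - v (coeff β ζ))} with hS
  have hmem : ∀ β : Ex, β ∈ S ↔ coeff β ζ ≠ 0 ∧ β ≠ 0 ∧ b₀ ≤ (p : ℝ) ^ (t + 1) * wt w β ∧
      R (v (coeff β ζ)) ∧ d < (p : ℝ) ^ (t + 1) * (wt w β - v (coeff β ζ)) := by
    intro β
    rw [hS, Finset.mem_filter, mem_support_iff]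
  obtain ⟨γ, hγ, hmax⟩ := S.exists_max_image dg ⟨β, (hmem β).mpr ⟨hβ, hβ0, hb, hR, hc⟩⟩
  obtain ⟨hγ1, hγ0, hγb, hγR, hγc⟩ := (hmem γ).mp hγ
  set Z := coeff γ ζ with hZ
  have hdg : 0 < dg γ := Nat.pos_of_ne_zero fun h => hγ0 (dg_eq_zero.mp h)
  -- the small terms
  have hsm : ∀ i < t, Gt v ((p : ℝ) ^ (t + 1) * v Z)
      (algebraMap k Ω (κ i) * coeff (p ^ (t + 1) • γ) (ζ ^ p ^ (i + 1))) := by
    intro i hi
    have h1 : p ^ (t + 1) • γ = p ^ (i + 1) • (p ^ (t - i) • γ) := by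
      rw [smul_smul, ← pow_add]
      congr 2
      omega
    rw [h1, coeff_pow_smul]
    set y := coeff (p ^ (t - i) • γ) ζ with hy
    have h2 : Gt v ((p : ℝ) ^ (t + 1) * v Z) (y ^ p ^ (i + 1)) := by
      intro h3
      have hy0 : y ≠ 0 := fun h4 => h3 (by rw [h4, zero_pow (by positivity)])
      by_contra h4
      push Not at h4
      rw [v.map_pow hy0] at h4
      push_cast at h4
      have h5 : (p : ℝ) ^ (t + 1) = (p : ℝ) ^ (i + 1) * (p : ℝ) ^ (t - i) := by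
        rw [← pow_add]
        congr 1
        omega
      have h6 : (0 : ℝ) < (p : ℝ) ^ (i + 1) := by positivity
      have h7 : v y ≤ (p : ℝ) ^ (t - i) * v Z := by
        rw [h5, mul_assoc] at h4
        exact le_of_mul_le_mul_left h4 h6
      have h8 : (1 : ℝ) ≤ (p : ℝ) ^ (t - i) := one_le_pow₀ (by exact_mod_cast hp.le)
      have h9 : wt w (p ^ (t - i) • γ) = (p : ℝ) ^ (t - i) * wt w γ := by
        rw [wt_smul]
        push_cast
        ring
      have h10 : 0 < wt w γ - v Z := by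
        by_contra h11
        push Not at h11
        have : (p : ℝ) ^ (t + 1) * (wt w γ - v Z) ≤ 0 :=
          mul_nonpos_of_nonneg_of_nonpos hQ.le h11
        linarith
      have hmem' : p ^ (t - i) • γ ∈ S := by
        rw [hmem]
        refine ⟨hy0, ?_, ?_, hR1 (t - i) _ _ hγR h7, ?_⟩
        · intro h11
          have h12 := dg_smul (p ^ (t - i)) γ
          rw [h11, show dg 0 = 0 from dg_eq_zero.mpr rfl] at h12
          rcases mul_eq_zero.mp h12.symm with h13 | h13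
          · exact absurd h13 (by positivity)
          · omega
        · rw [h9]
          have := wt_nonneg hw γ
          have h11 : wt w γ ≤ (p : ℝ) ^ (t - i) * wt w γ := by nlinarith
          nlinarith
        · rw [h9]
          have h11 : wt w γ - v Z ≤ (p : ℝ) ^ (t - i) * wt w γ - v y := by nlinarith
          nlinarith
      have h11 := hmax _ hmem'
      rw [dg_smul] at h11
      have h12 : 1 < p ^ (t - i) := Nat.one_lt_pow (by omega) hp
      nlinarith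
    rw [mul_comm (algebraMap k Ω (κ i))]
    have h3 := Gt.mul_ge h2 (hk.ge (κ i))
    rwa [add_zero] at h3
  have hFγ : Gt v ((p : ℝ) ^ (t + 1) * v Z) (coeff (p ^ (t + 1) • γ) F) := by
    refine Gt.of_ge (hF _) ?_
    rw [wt_smul]
    push_cast
    linarith
  have hmain := hR2 γ hγ0 hγ1 hγb hγR
  rw [coeff_add, coeff_PPΩ, Finset.sum_range_succ] at hmain
  have hsum : Gt v ((p : ℝ) ^ (t + 1) * v Z) (∑ i ∈ Finset.range t,
      algebraMap k Ω (κ i) * coeff (p ^ (t + 1) • γ) (ζ ^ p ^ (i + 1))) :=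
    Gt.sum _ _ fun i hi => hsm i (Finset.mem_range.mp hi)
  have htop : Gt v ((p : ℝ) ^ (t + 1) * v Z) (algebraMap k Ω (κ t) *
      coeff (p ^ (t + 1) • γ) (ζ ^ p ^ (t + 1))) := by
    have h1 := (hmain.sub hFγ).sub hsum
    have h2 : ∀ A B D : Ω, A + B + D - D - A = B := fun A B D => by ring
    rwa [h2] at h1
  rw [coeff_pow_smul] at htop
  have hκ' : algebraMap k Ω (κ t) ≠ 0 := by simpa using hκ
  have h1 := htop (mul_ne_zero hκ' (pow_ne_zero _ hγ1))
  rw [v.map_mul hκ' (pow_ne_zero _ hγ1), hk.triv _ hκ, zero_add, v.map_pow hγ1] at h1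
  push_cast at h1
  exact lt_irrefl _ h1

/-- The chain for one exponent which is not divisible by `p ^ (t + 1)`. -/
theorem chain_one (hk : Ctx0 k v) (hκ : κ t ≠ 0) {d b₀ : ℝ} (hd : 0 < d) (hw : ∀ i, 0 ≤ w i)
    {F ζ : MvPolynomial (Fin 2) Ω} (hF : Fil v w d F) (R : ℝ → Prop)
    (hR1 : ∀ (j : ℕ) (ρ ρ' : ℝ), R ρ → ρ' ≤ (p : ℝ) ^ j * ρ → R ρ')
    (hR2 : ∀ β : Ex, β ≠ 0 → coeff β ζ ≠ 0 → b₀ ≤ (p : ℝ) ^ (t + 1) * wt w β →
      R (v (coeff β ζ)) → Gt v ((p : ℝ) ^ (t + 1) * v (coeff β ζ))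
        (coeff (p ^ (t + 1) • β) (PP p κ t ζ + F))) (β : Ex) (hβ : ∀ α, β ≠ p ^ (t + 1) • α)
    (hb : b₀ ≤ wt w β)
    (hRβ : ∀ ρ : ℝ, ∀ i ≤ t, (p : ℝ) ^ (i + 1) * ρ ≤ wt w β - d → R ρ)
    (hbig : Gt v (wt w β - d) (coeff β (PP p κ t ζ + F))) :
    Gt v (wt w β - d) (coeff β F) := by
  classical
  have : CharP Ω p := charP_of_injective_algebraMap (algebraMap k Ω).injective p
  have hp : 1 < p := Nat.Prime.one_lt Fact.out
  have hQ : (0 : ℝ) < (p : ℝ) ^ (t + 1) := by positivity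
  have hβ0 : β ≠ 0 := fun h => hβ 0 (by rw [h, smul_zero])
  have hterm : ∀ i ∈ Finset.range (t + 1), Gt v (wt w β - d)
      (algebraMap k Ω (κ i) * coeff β (ζ ^ p ^ (i + 1))) := by
    intro i hi
    rw [Finset.mem_range] at hi
    by_contra hcon
    have h1 : ¬ Gt v (wt w β - d) (coeff β (ζ ^ p ^ (i + 1))) := by
      intro h2
      apply hcon
      rw [mul_comm (algebraMap k Ω (κ i))]
      have h3 := Gt.mul_ge h2 (hk.ge (κ i))
      rwa [add_zero] at h3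
    have h2 : coeff β (ζ ^ p ^ (i + 1)) ≠ 0 := fun h3 => h1 fun h4 => absurd h3 h4
    obtain ⟨γ, hγ, hγ1⟩ := exists_of_coeff_pow p ζ (i + 1) h2
    have hit : i < t := by
      by_contra h3
      have : i = t := by omega
      rw [this] at hγ
      exact hβ γ hγ
    have h3 : p ^ (i + 1) * v (coeff γ ζ) ≤ wt w β - d := by
      by_contra h4
      push Not at h4
      apply h1
      intro _
      rw [hγ, coeff_pow_smul, v.map_pow hγ1, ← hγ]
      push_cast
      exact h4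
    have hγ0 : γ ≠ 0 := by
      rintro rfl
      rw [smul_zero] at hγ
      exact hβ0 hγ
    have h4 : wt w β = (p : ℝ) ^ (i + 1) * wt w γ := by
      rw [hγ, wt_smul]
      push_cast
      ring
    have h5 : (p : ℝ) ^ (i + 1) < (p : ℝ) ^ (t + 1) :=
      pow_lt_pow_right₀ (by exact_mod_cast hp) (by omega)
    have h6 := wt_nonneg hw γ
    refine chain_core hk hκ hd hw hF R hR1 hR2 γ hγ0 hγ1 ?_ (hRβ _ i (by omega) h3) ?_
    · rw [h4] at hb
      nlinarith
    · have h7 : (0 : ℝ) < (p : ℝ) ^ (i + 1) := by positivity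
      have h8 : d ≤ (p : ℝ) ^ (i + 1) * (wt w γ - v (coeff γ ζ)) := by
        rw [h4] at h3
        linarith
      have h9 : 0 < wt w γ - v (coeff γ ζ) := by
        by_contra h10
        push Not at h10
        have : (p : ℝ) ^ (i + 1) * (wt w γ - v (coeff γ ζ)) ≤ 0 :=
          mul_nonpos_of_nonneg_of_nonpos h7.le h10
        linarith
      nlinarith
  have h1 : Gt v (wt w β - d) (coeff β (PP p κ t ζ)) := by
    rw [coeff_PPΩ]
    exact Gt.sum _ _ hterm
  have h2 := hbig.sub h1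
  rw [coeff_add] at h2
  have h3 : ∀ A B : Ω, A + B - A = B := fun A B => by ring
  rwa [h3] at h2

/-- **The chain, with an error.** -/
theorem chain_err (hk : Ctx0 k v) (hκ : κ t ≠ 0) {d r : ℝ} (hd : 0 < d) (hr : 0 ≤ r)
    (hw : ∀ i, 0 ≤ w i) {F ζ : MvPolynomial (Fin 2) Ω} (hF : Fil v w d F)
    (h : ∀ β : Ex, β ≠ 0 → v.Ge (-r) (coeff β (PP p κ t ζ + F))) (β : Ex)
    (hβ : ∀ α, β ≠ p ^ (t + 1) • α) (hβd : wt w β < d - r) :
    Gt v (wt w β - d) (coeff β F) := by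
  have hp : 1 < p := Nat.Prime.one_lt Fact.out
  have hQ : (0 : ℝ) < (p : ℝ) ^ (t + 1) := by positivity
  have hβ0 : β ≠ 0 := fun h => hβ 0 (by rw [h, smul_zero])
  refine chain_one (b₀ := 0) (ζ := ζ) hk hκ hd hw hF
    (fun ρ => ρ ≤ 0 ∧ (p : ℝ) ^ (t + 1) * ρ < -r) ?_ ?_ β hβ (wt_nonneg hw β) ?_ ?_
  · rintro j ρ ρ' ⟨h1, h2⟩ h3
    have h4 : (1 : ℝ) ≤ (p : ℝ) ^ j := one_le_pow₀ (by exact_mod_cast hp.le)
    have h5 : ρ' ≤ ρ := by nlinarith
    exact ⟨by linarith, by nlinarith⟩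
  · rintro γ hγ0 - - ⟨-, h2⟩
    refine Gt.of_ge (h _ ?_) h2
    intro h3
    apply hγ0
    rw [← dg_eq_zero] at h3 ⊢
    rw [dg_smul] at h3
    exact (mul_eq_zero.mp h3).resolve_left (by positivity)
  · intro ρ i hi h1
    have h2 : (0 : ℝ) < (p : ℝ) ^ (i + 1) := by positivity
    have h3 : ρ ≤ 0 := by
      by_contra h4
      push Not at h4
      have : 0 < (p : ℝ) ^ (i + 1) * ρ := by positivity
      linarith
    have h4 : (p : ℝ) ^ (i + 1) ≤ (p : ℝ) ^ (t + 1) :=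
      pow_le_pow_right₀ (by exact_mod_cast hp.le) (by omega)
    exact ⟨h3, by nlinarith⟩
  · exact Gt.of_ge (h β hβ0) (by linarith)

/-- **The chain, exact version.** -/
theorem chain_exact (hk : Ctx0 k v) (hκ : κ t ≠ 0) {d B : ℝ} (hd : 0 < d)
    (hw : ∀ i, 0 ≤ w i) {F ζ : MvPolynomial (Fin 2) Ω} (hF : Fil v w d F)
    (h : ∀ β : Ex, β ≠ 0 → B ≤ wt w β → coeff β (PP p κ t ζ + F) = 0) (β : Ex)
    (hβ : ∀ α, β ≠ p ^ (t + 1) • α) (hβB : B ≤ wt w β) :
    Gt v (wt w β - d) (coeff β F) := by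
  have hp : 1 < p := Nat.Prime.one_lt Fact.out
  have hβ0 : β ≠ 0 := fun h => hβ 0 (by rw [h, smul_zero])
  refine chain_one (b₀ := B) (ζ := ζ) hk hκ hd hw hF (fun _ => True) (fun _ _ _ _ _ => trivial) ?_ β hβ
    hβB (fun _ _ _ _ => trivial) ?_
  · intro γ hγ0 _ hb _
    rw [h]
    · exact Gt.zero
    · intro h3
      apply hγ0
      rw [← dg_eq_zero] at h3 ⊢
      rw [dg_smul] at h3
      exact (mul_eq_zero.mp h3).resolve_left (by positivity)
    · rw [wt_smul]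
      push_cast
      exact hb
  · rw [h β hβ0 hβB]
    exact Gt.zero

end chain

end Pool.Agent.TWLG64
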