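import Pool.Agent.Lib.TWLG64.Fil

/-!
# Right translates of a position: the top form of `G`
-/

set_option autoImplicit false

namespace Pool.Agent.TWLG64

open MvPolynomial
open TWIV.JW (BB sh cz)
open Pool.Agent.H15JM (RVal)
open Pool.Agent.LU1 (VPos)
open Pool.Agent.D2 (Ctx0)
open Pool.Agent.TWM (Gt)
open Pool.Agent.TWLY

universe u

/-! ## the Hasse derivative in the second variable -/

section dc

variable {R : Type*} [CommRing R]

/-- Taylor expansion in the second variable -/
noncomputable def sg (R : Type*) [CommRing R] :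
    MvPolynomial (Fin 2) R →ₐ[R] Polynomial (MvPolynomial (Fin 2) R) :=
  aeval ![Polynomial.C (X 0), Polynomial.X + Polynomial.C (X 1)]

/-- Hasse derivative in the second variable -/
noncomputable def dc (b : ℕ) (F : MvPolynomial (Fin 2) R) : MvPolynomial (Fin 2) R :=
  (sg R F).coeff b

theorem sg_monomial (m : Ex) (a : R) : sg R (monomial m a) =
    Polynomial.C (C a * X 0 ^ m 0) * (Polynomial.X + Polynomial.C (X 1)) ^ m 1 := by
  rw [sg, aeval_monomial, Finsupp.prod_fintype _ _ (by simp), Fin.prod_univ_two]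
  rw [Polynomial.C_mul, Polynomial.C_pow, mul_assoc]
  congr 1

theorem coeff_dc (b : ℕ) (F : MvPolynomial (Fin 2) R) (β : Ex) :
    coeff β (dc b F) = ((β 1 + b).choose b : R) * coeff (β + Finsupp.single 1 b) F := by
  classical
  induction F using MvPolynomial.induction_on' with
  | monomial m a =>
    rw [dc, sg_monomial, Polynomial.coeff_C_mul, Polynomial.coeff_X_add_C_pow]
    have e1 : ((m 1).choose b : MvPolynomial (Fin 2) R) = C ((m 1).choose b : R) := by simp
    have e2 : C a * X 0 ^ m 0 * (X 1 ^ (m 1 - b) * ((m 1).choose b : MvPolynomial (Fin 2) R)) =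
        monomial (mk (m 0) (m 1 - b)) (a * ((m 1).choose b : R)) := by
      rw [e1, X_pow_eq_monomial, X_pow_eq_monomial, C_mul_monomial, mul_one, mul_comm (monomial _ 1),
        C_mul_monomial, mul_one, monomial_mul]
      rfl
    rw [e2, coeff_monomial, coeff_monomial]
    by_cases h1 : m = β + Finsupp.single 1 b
    · have h2 : mk (m 0) (m 1 - b) = β := by
        rw [mk_eq_iff, h1]
        simp
      have h3 : m 1 = β 1 + b := by rw [h1]; simp
      rw [if_pos h2, if_pos h1, h3]
      ring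
    · rw [if_neg h1, mul_zero]
      split_ifs with h2
      · rw [mk_eq_iff] at h2
        by_cases h3 : b ≤ m 1
        · exfalso
          apply h1
          refine ex_ext ?_ ?_
          · rw [Finsupp.add_apply, ← h2.1]
            simp
          · rw [Finsupp.add_apply, ← h2.2]
            simp
            omega
        · rw [Nat.choose_eq_zero_of_lt (by omega)]
          simp
      · rfl
  | add P P' hP hP' =>
    have : dc b (P + P') = dc b P + dc b P' := by
      unfold dc
      rw [map_add, Polynomial.coeff_add]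
    rw [this, coeff_add, hP, hP', coeff_add, mul_add]

end dc

variable {k Ω : Type u} [Field k] [Field Ω] [Algebra k Ω] {v : RVal Ω} {w : Fin 2 → ℝ}

/-- the right translate of a position -/
noncomputable def LL (k : Type u) {Ω : Type u} [Field k] [Field Ω] [Algebra k Ω] (y : Fin 2 → Ω)
    (Φ : Polynomial Ω) : MvPolynomial (Fin 2) k →ₐ[k] MvPolynomial (Fin 2) Ω :=
  aeval ![X 0 + C (y 0), X 1 + C (y 1) + Polynomial.aeval (X 0) Φ]

/-- the inclusion of the constants -/
noncomputable def mp (Ω : Type u) {k : Type u} [Field k] [Field Ω] [Algebra k Ω] :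
    MvPolynomial (Fin 2) k →+* MvPolynomial (Fin 2) Ω :=
  MvPolynomial.map (algebraMap k Ω)

theorem coeff_mp (F : MvPolynomial (Fin 2) k) (β : Ex) :
    coeff β (mp Ω F) = algebraMap k Ω (coeff β F) := coeff_map _ _ _

/-- The sizes of the position. -/
structure Siz (v : RVal Ω) (w : Fin 2 → ℝ) (y : Fin 2 → Ω) (Φ : Polynomial Ω) : Prop where
  y : ∀ i, v.Ge (-(w i)) (y i)
  phi : ∀ j : ℕ, v.Ge (j * w 0 - w 1) (Φ.coeff j)

theorem Siz.fil_phi (hk : Ctx0 k v) {y : Fin 2 → Ω} {Φ : Polynomial Ω} (h : Siz v w y Φ) :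
    Fil v w (w 1) (Polynomial.aeval (X 0 : MvPolynomial (Fin 2) Ω) Φ) := by
  rw [Polynomial.aeval_eq_sum_range]
  refine Fil.sum _ _ fun j _ => ?_
  rw [smul_eq_C_mul]
  have h1 : Fil v w (w 1 - j * w 0) (C (Φ.coeff j) : MvPolynomial (Fin 2) Ω) :=
    Fil.C (by rw [neg_sub]; exact h.phi j)
  have h2 := h1.mul ((Fil.X hk 0).pow hk j)
  rwa [sub_add_cancel] at h2

/-- The translate is filtered. -/
theorem Siz.fil (hk : Ctx0 k v) {y : Fin 2 → Ω} {Φ : Polynomial Ω} (h : Siz v w y Φ) {d : ℝ}
    {F : MvPolynomial (Fin 2) k} (hF : ∀ m ∈ F.support, wt w m ≤ d) :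
    Fil v w d (LL k y Φ F) := by
  rw [F.as_sum, map_sum]
  refine Fil.sum _ _ fun m hm => ?_
  rw [LL, aeval_monomial, Finsupp.prod_fintype _ _ (by simp), Fin.prod_univ_two]
  have h0 : Fil v w 0 (algebraMap k (MvPolynomial (Fin 2) Ω) (coeff m F)) := by
    rw [IsScalarTower.algebraMap_apply k Ω (MvPolynomial (Fin 2) Ω), algebraMap_eq]
    refine Fil.C ?_
    rw [neg_zero]
    exact hk.ge _
  have h1 : Fil v w (w 0) (X 0 + C (y 0) : MvPolynomial (Fin 2) Ω) :=
    (Fil.X hk 0).add (Fil.C (h.y 0))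
  have h2 : Fil v w (w 1) (X 1 + C (y 1) + Polynomial.aeval (X 0) Φ :
      MvPolynomial (Fin 2) Ω) :=
    ((Fil.X hk 1).add (Fil.C (h.y 1))).add (h.fil_phi hk)
  have h3 := h0.mul ((h1.pow hk (m 0)).mul (h2.pow hk (m 1)))
  refine h3.mono ?_
  rw [zero_add]
  exact hF m hm

/-- Terms of smaller weight give strictly smaller coefficients. -/
theorem Siz.gt (hk : Ctx0 k v) {y : Fin 2 → Ω} {Φ : Polynomial Ω} (h : Siz v w y Φ) {d : ℝ}
    {F : MvPolynomial (Fin 2) k} (hF : ∀ m ∈ F.support, wt w m < d) (β : Ex) :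
    Gt v (wt w β - d) (coeff β (LL k y Φ F)) := by
  by_cases h0 : F = 0
  · rw [h0, map_zero, coeff_zero]
    exact Gt.zero
  obtain ⟨m₀, hm₀, hmax⟩ := F.support.exists_max_image (wt w) (support_nonempty.mpr h0)
  have h1 := h.fil hk (F := F) hmax β
  exact Gt.of_ge h1 (by linarith [hF m₀ hm₀])

/-- the part of weight `d` -/
noncomputable def tpp (w : Fin 2 → ℝ) (d : ℝ) (G : MvPolynomial (Fin 2) k) :
    MvPolynomial (Fin 2) k := by
  classical
  exact ∑ m ∈ G.support with wt w m = d, monomial m (coeff m G)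

theorem coeff_tpp (d : ℝ) (G : MvPolynomial (Fin 2) k) (m : Ex) [Decidable (wt w m = d)] :
    coeff m (tpp w d G) = if wt w m = d then coeff m G else 0 := by
  classical
  rw [tpp, coeff_sum]
  simp_rw [coeff_monomial]
  rw [Finset.sum_ite_eq']
  by_cases h1 : wt w m = d
  · rw [if_pos h1]
    by_cases h2 : coeff m G = 0
    · rw [if_neg, h2]
      rw [Finset.mem_filter, mem_support_iff]
      exact fun h => h.1 h2
    · rw [if_pos]
      rw [Finset.mem_filter, mem_support_iff]
      exact ⟨h2, h1⟩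
  · rw [if_neg h1, if_neg]
    rw [Finset.mem_filter]
    exact fun h => h1 h.2

/-- Density of the products of two points of the curve, as it is used. -/
def Dns (k : Type u) {Ω : Type u} [Field k] [Field Ω] [Algebra k Ω] (v : RVal Ω)
    (w : Fin 2 → ℝ) (y : Fin 2 → Ω) (Φ : Polynomial Ω) : Prop :=
  ∀ d : ℝ, 0 < d → ∀ H : MvPolynomial (Fin 2) k, (∀ m ∈ H.support, wt w m = d) →
    (∀ β : Ex, Gt v (wt w β - d) (coeff β (LL k y Φ H - mp Ω H))) → H = 0

/-! ## commutation with the Hasse derivative -/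

section comm

variable {y : Fin 2 → Ω} {Φ : Polynomial Ω}

theorem LL_X0 : LL k y Φ (X 0) = X 0 + C (y 0) := by simp [LL]

theorem LL_X1 : LL k y Φ (X 1) = X 1 + C (y 1) + Polynomial.aeval (X 0) Φ := by simp [LL]

theorem sg_LL (F : MvPolynomial (Fin 2) k) :
    sg Ω (LL k y Φ F) = (sg k F).map (LL k y Φ).toRingHom := by
  have h : ((sg Ω).restrictScalars k).comp (LL k y Φ) =
      (Polynomial.mapAlgHom (LL k y Φ)).comp (sg k) := by
    apply MvPolynomial.algHom_ext
    intro i
    fin_cases i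
    · show sg Ω (LL k y Φ (X 0)) = (sg k (X 0)).map (LL k y Φ).toRingHom
      rw [LL_X0, map_add]
      have e1 : sg k (X 0) = Polynomial.C (X 0) := by simp [sg]
      have e2 : sg Ω (X 0) = Polynomial.C (X 0) := by simp [sg]
      have e3 : sg Ω (C (y 0)) = Polynomial.C (C (y 0)) := by
        rw [← algebraMap_eq, AlgHom.commutes]
        rfl
      rw [e1, e2, e3, Polynomial.map_C, ← Polynomial.C_add]
      congr 1
      exact LL_X0.symm
    · show sg Ω (LL k y Φ (X 1)) = (sg k (X 1)).map (LL k y Φ).toRingHom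
      rw [LL_X1, map_add, map_add]
      have e1 : sg k (X 1) = Polynomial.X + Polynomial.C (X 1) := by simp [sg]
      have e2 : sg Ω (X 1) = Polynomial.X + Polynomial.C (X 1) := by simp [sg]
      have e3 : sg Ω (C (y 1)) = Polynomial.C (C (y 1)) := by
        rw [← algebraMap_eq, AlgHom.commutes]
        rfl
      have e4 : sg Ω (Polynomial.aeval (X 0) Φ) = Polynomial.C (Polynomial.aeval (X 0) Φ) := by
        have e5 : sg Ω (X 0) = Polynomial.C (X 0) := by simp [sg]
        rw [← Polynomial.aeval_algHom_apply, e5]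
        exact Polynomial.aeval_algHom_apply
          (Algebra.ofId (MvPolynomial (Fin 2) Ω)
            (Polynomial (MvPolynomial (Fin 2) Ω)) |>.restrictScalars Ω) (X 0) Φ
      rw [e1, e2, e3, e4, Polynomial.map_add, Polynomial.map_X, Polynomial.map_C]
      have e6 : (LL k y Φ).toRingHom (X 1) = X 1 + C (y 1) + Polynomial.aeval (X 0) Φ := LL_X1
      rw [e6, Polynomial.C_add, Polynomial.C_add]
      ring
  exact DFunLike.congr_fun h F

theorem dc_LL (b : ℕ) (F : MvPolynomial (Fin 2) k) :
    dc b (LL k y Φ F) = LL k y Φ (dc b F) := by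
  rw [dc, sg_LL, Polynomial.coeff_map]
  rfl

theorem dc_mp (b : ℕ) (F : MvPolynomial (Fin 2) k) : dc b (mp Ω F) = mp Ω (dc b F) := by
  ext β
  rw [coeff_dc, coeff_mp, coeff_mp, coeff_dc, map_mul, map_natCast]

theorem dc_sub (b : ℕ) (F F' : MvPolynomial (Fin 2) Ω) : dc b (F - F') = dc b F - dc b F' := by
  unfold dc
  rw [map_sub, Polynomial.coeff_sub]

end comm

end Pool.Agent.TWLG64
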