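import Pool.Agent.Lib.TWLG64.Star

/-!
# The plane lemma: the layer depends on the first variable only
-/

set_option autoImplicit false

namespace Pool.Agent.TWLG64

open MvPolynomial
open TWIV.JW (BB sh cz)
open Pool.Agent.H15JM (RVal)
open Pool.Agent.LU1 (VPos)
open Pool.Agent.D2 (Ctx0)
open Pool.Agent.TWM (Gt)
open Pool.Agent.TWLY

universe u

variable {k Ω : Type u} [Field k] [Field Ω] [Algebra k Ω] {v : RVal Ω} {w : Fin 2 → ℝ}
  {y : Fin 2 → Ω} {Φ : Polynomial Ω}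

/-! ## filtered polynomials whose leading coefficients have size at least zero -/

/-- filtered, and strictly so in weights above `d` -/
structure FilP (v : RVal Ω) (w : Fin 2 → ℝ) (d : ℝ) (F : MvPolynomial (Fin 2) Ω) : Prop where
  fil : Fil v w d F
  pos : ∀ β, d < wt w β → Gt v (wt w β - d) (coeff β F)

theorem FilP.add {d : ℝ} {F F' : MvPolynomial (Fin 2) Ω} (h : FilP v w d F)
    (h' : FilP v w d F') : FilP v w d (F + F') :=
  ⟨h.fil.add h'.fil, fun β hβ => by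
    rw [coeff_add]
    exact (h.pos β hβ).add (h'.pos β hβ)⟩

theorem FilP.mono {d d' : ℝ} {F : MvPolynomial (Fin 2) Ω} (h : FilP v w d F) (hd : d ≤ d') :
    FilP v w d' F :=
  ⟨h.fil.mono hd, fun β hβ => (h.pos β (by linarith)).mono (by linarith)⟩

theorem FilP.mul {d d' : ℝ} {F F' : MvPolynomial (Fin 2) Ω} (h : FilP v w d F)
    (h' : FilP v w d' F') : FilP v w (d + d') (F * F') := by
  classical
  refine ⟨h.fil.mul h'.fil, fun β hβ => ?_⟩
  rw [coeff_mul]
  refine Gt.sum _ _ fun q hq => ?_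
  rw [Finset.HasAntidiagonal.mem_antidiagonal] at hq
  rw [← hq, wt_add] at hβ
  by_cases h1 : d < wt w q.1
  · refine (Gt.mul_ge (h.pos q.1 h1) (h'.fil q.2)).mono ?_
    rw [← hq, wt_add]
    linarith
  · have h2 : d' < wt w q.2 := by
      push Not at h1
      linarith
    rw [mul_comm]
    refine (Gt.mul_ge (h'.pos q.2 h2) (h.fil q.1)).mono ?_
    rw [← hq, wt_add]
    linarith

theorem FilP.C {d : ℝ} (hd : 0 ≤ d) {a : Ω} (h : v.Ge (-d) a) :
    FilP v w d (MvPolynomial.C a) := by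
  classical
  refine ⟨Fil.C h, fun β hβ => ?_⟩
  rw [coeff_C, if_neg]
  · exact Gt.zero
  · rintro rfl
    rw [wt_zero] at hβ
    linarith

theorem FilP.X (hk : Ctx0 k v) (i : Fin 2) :
    FilP v w (w i) (X i : MvPolynomial (Fin 2) Ω) := by
  classical
  refine ⟨Fil.X hk i, fun β hβ => ?_⟩
  rw [coeff_X, if_neg]
  · exact Gt.zero
  · rintro rfl
    rw [wt_single, Nat.cast_one, one_mul] at hβ
    exact lt_irrefl _ hβ

theorem FilP.pow (hk : Ctx0 k v) {d : ℝ} {F : MvPolynomial (Fin 2) Ω}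
    (h : FilP v w d F) (n : ℕ) : FilP v w (n * d) (F ^ n) := by
  induction n with
  | zero =>
    rw [pow_zero, Nat.cast_zero, zero_mul, ← C_1]
    refine FilP.C le_rfl ?_
    have := hk.ge 1
    rwa [map_one, ← neg_zero] at this
  | succ n ih =>
    rw [pow_succ]
    have := ih.mul h
    push_cast
    rwa [add_mul, one_mul]

theorem FilP.sum {ι : Type*} (S : Finset ι) {d : ℝ} (F : ι → MvPolynomial (Fin 2) Ω)
    (h : ∀ i ∈ S, FilP v w d (F i)) : FilP v w d (∑ i ∈ S, F i) :=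
  ⟨Fil.sum S F fun i hi => (h i hi).fil, fun β hβ => by
    rw [coeff_sum]
    exact Gt.sum _ _ fun i hi => (h i hi).pos β hβ⟩

/-- The leading coefficients of the position have size at least zero. -/
def Pos (v : RVal Ω) (w : Fin 2 → ℝ) (Φ : Polynomial Ω) : Prop :=
  ∀ j : ℕ, w 1 < j * w 0 → Gt v (j * w 0 - w 1) (Φ.coeff j)

theorem Siz.filP_phi (h : Siz v w y Φ) (hpos : Pos v w Φ) :
    FilP v w (w 1) (Polynomial.aeval (X 0 : MvPolynomial (Fin 2) Ω) Φ) := by
  classical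
  rw [Polynomial.aeval_eq_sum_range]
  refine FilP.sum _ _ fun j _ => ?_
  rw [smul_eq_C_mul, X_pow_eq_monomial, C_mul_monomial, mul_one]
  have hc : ∀ β : Ex, coeff β (monomial (Finsupp.single 0 j) (Φ.coeff j)) ≠ 0 →
      wt w β = j * w 0 ∧ coeff β (monomial (Finsupp.single 0 j) (Φ.coeff j)) = Φ.coeff j := by
    intro β hβ
    rw [coeff_monomial] at hβ ⊢
    by_cases h1 : Finsupp.single 0 j = β
    · rw [if_pos h1, ← h1, wt_single]
      exact ⟨rfl, rfl⟩
    · rw [if_neg h1] at hβ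
      exact absurd rfl hβ
  refine ⟨fun β => ?_, fun β hβ => ?_⟩
  · intro h0
    obtain ⟨h1, h2⟩ := hc β h0
    rw [h2] at h0 ⊢
    rw [h1]
    exact h.phi j h0
  · intro h0
    obtain ⟨h1, h2⟩ := hc β h0
    rw [h2] at h0 ⊢
    rw [h1] at hβ ⊢
    exact hpos j hβ h0

theorem Siz.filP (hk : Ctx0 k v) (hw : ∀ i, 0 ≤ w i) (h : Siz v w y Φ) (hpos : Pos v w Φ)
    {d : ℝ} {F : MvPolynomial (Fin 2) k} (hF : ∀ m ∈ F.support, wt w m ≤ d) :
    FilP v w d (LL k y Φ F) := by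
  rw [F.as_sum, map_sum]
  refine FilP.sum _ _ fun m hm => ?_
  rw [LL, aeval_monomial, Finsupp.prod_fintype _ _ (by simp), Fin.prod_univ_two]
  have h0 : FilP v w 0 (algebraMap k (MvPolynomial (Fin 2) Ω) (coeff m F)) := by
    rw [IsScalarTower.algebraMap_apply k Ω (MvPolynomial (Fin 2) Ω), algebraMap_eq]
    refine FilP.C le_rfl ?_
    rw [neg_zero]
    exact hk.ge _
  have h1 : FilP v w (w 0) (X 0 + MvPolynomial.C (y 0) : MvPolynomial (Fin 2) Ω) :=
    (FilP.X hk 0).add (FilP.C (hw 0) (h.y 0))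
  have h2 : FilP v w (w 1) (X 1 + MvPolynomial.C (y 1) + Polynomial.aeval (X 0) Φ :
      MvPolynomial (Fin 2) Ω) :=
    ((FilP.X hk 1).add (FilP.C (hw 1) (h.y 1))).add (h.filP_phi hpos)
  have h3 := h0.mul ((h1.pow hk (m 0)).mul (h2.pow hk (m 1)))
  refine h3.mono ?_
  rw [zero_add]
  exact hF m hm

/-! ## filtered modulo the maximal ideal -/

/-- combined weight at most `e`, modulo the maximal ideal -/
def FilM (v : RVal Ω) (w : Fin 2 → ℝ) (e : ℝ) (F : MvPolynomial (Fin 2) Ω) : Prop :=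
  ∀ β, (wt w β ≤ e → v.Ge (wt w β - e) (coeff β F)) ∧ (e < wt w β → VPos v (coeff β F))

theorem FilM.mono {e e' : ℝ} {F : MvPolynomial (Fin 2) Ω} (h : FilM v w e F) (he : e ≤ e') :
    FilM v w e' F := by
  intro β
  refine ⟨fun h1 => ?_, fun h1 => (h β).2 (by linarith)⟩
  by_cases h2 : wt w β ≤ e
  · exact ((h β).1 h2).mono (by linarith)
  · push Not at h2
    intro h0
    have := (h β).2 h2 h0
    linarith

section main

variable {p : ℕ} [Fact p.Prime] [CharP k p] {κ : ℕ → k} {t : ℕ}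

/-- The size of the displacement polynomial. -/
theorem filM_of_kr (hk : Ctx0 k v) (hκ : κ t ≠ 0) {d₀ ome : ℝ} (hd₀ : 0 ≤ d₀)
    (hod : ome ≤ d₀) {F Λ Err : MvPolynomial (Fin 2) Ω} (hF : Fil v w d₀ F)
    (hErr : ∀ e, ome ≤ e → FilM v w e Λ → FilM v w e Err)
    (hKR : ∀ β : Ex, VPos v (coeff β (PP p κ t Λ + F + Err))) :
    FilM v w (d₀ / (p : ℝ) ^ (t + 1)) Λ := by
  classical
  have : CharP Ω p := charP_of_injective_algebraMap (algebraMap k Ω).injective p
  have hp : 1 < p := Nat.Prime.one_lt Fact.out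
  have hQ : (0 : ℝ) < (p : ℝ) ^ (t + 1) := by positivity
  by_contra hcon
  -- a heavy coefficient
  have hex : ∃ β : Ex, coeff β Λ ≠ 0 ∧ v (coeff β Λ) ≤ 0 ∧
      d₀ / (p : ℝ) ^ (t + 1) < wt w β - v (coeff β Λ) := by
    unfold FilM at hcon
    push Not at hcon
    obtain ⟨β, hβ⟩ := hcon
    by_cases h1 : wt w β ≤ d₀ / (p : ℝ) ^ (t + 1)
    · by_cases h2 : v.Ge (wt w β - d₀ / (p : ℝ) ^ (t + 1)) (coeff β Λ)
      · obtain ⟨h3, -⟩ := hβ fun _ => h2
        linarith
      · have h3 : coeff β Λ ≠ 0 := fun h4 => h2 fun h5 => absurd h4 h5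
        have h4 : v (coeff β Λ) < wt w β - d₀ / (p : ℝ) ^ (t + 1) := by
          by_contra h5
          push Not at h5
          exact h2 fun _ => h5
        exact ⟨β, h3, by linarith, by linarith⟩
    · obtain ⟨h2, h3⟩ := hβ fun h4 => absurd h4 h1
      push Not at h1
      have h4 : coeff β Λ ≠ 0 := fun h5 => h3 fun h6 => absurd h5 h6
      have h5 : v (coeff β Λ) ≤ 0 := by
        by_contra h6
        push Not at h6
        exact h3 fun _ => h6
      exact ⟨β, h4, h5, by linarith⟩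
  set S : Finset Ex := {β ∈ Λ.support | v (coeff β Λ) ≤ 0} with hS
  have hmem : ∀ β : Ex, β ∈ S ↔ coeff β Λ ≠ 0 ∧ v (coeff β Λ) ≤ 0 := by
    intro β
    rw [hS, Finset.mem_filter, mem_support_iff]
  obtain ⟨β₀, hβ₀1, hβ₀2, hβ₀3⟩ := hex
  obtain ⟨γ, hγ, hmax⟩ := S.exists_max_image (fun β => wt w β - v (coeff β Λ))
    ⟨β₀, (hmem β₀).mpr ⟨hβ₀1, hβ₀2⟩⟩
  obtain ⟨hγ1, hγ2⟩ := (hmem γ).mp hγ
  set c := wt w γ - v (coeff γ Λ) with hc
  have hcd : d₀ / (p : ℝ) ^ (t + 1) < c := lt_of_lt_of_le hβ₀3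
    (hmax β₀ ((hmem β₀).mpr ⟨hβ₀1, hβ₀2⟩))
  have hd₀Q : 0 ≤ d₀ / (p : ℝ) ^ (t + 1) := by positivity
  have hc0 : 0 < c := lt_of_le_of_lt hd₀Q hcd
  have hcd' : d₀ < (p : ℝ) ^ (t + 1) * c := by
    rw [div_lt_iff₀ hQ] at hcd
    linarith
  have hbd : ∀ β : Ex, coeff β Λ ≠ 0 → v (coeff β Λ) ≤ 0 → wt w β - c ≤ v (coeff β Λ) := by
    intro β h1 h2
    have := hmax β ((hmem β).mpr ⟨h1, h2⟩)
    linarith
  have hΛc : FilM v w c Λ := by
    intro β
    refine ⟨fun h1 h0 => ?_, fun h1 h0 => ?_⟩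
    · by_cases h2 : v (coeff β Λ) ≤ 0
      · exact hbd β h0 h2
      · push Not at h2
        linarith
    · by_contra h2
      push Not at h2
      have := hbd β h0 h2
      linarith
  have hErr' := hErr (max c ome) (le_max_right _ _) (hΛc.mono (le_max_left _ _))
  set ρ := (p : ℝ) ^ (t + 1) * v (coeff γ Λ) with hρ
  have hρ0 : ρ ≤ 0 := mul_nonpos_of_nonneg_of_nonpos hQ.le hγ2
  have hwt : wt w (p ^ (t + 1) • γ) = (p : ℝ) ^ (t + 1) * wt w γ := by
    rw [wt_smul]
    push_cast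
    ring
  have hρ' : ρ = wt w (p ^ (t + 1) • γ) - (p : ℝ) ^ (t + 1) * c := by
    rw [hwt, hρ, hc]
    ring
  have hcQ : c < (p : ℝ) ^ (t + 1) * c := by
    have h1 : (1 : ℝ) < (p : ℝ) ^ (t + 1) := one_lt_pow₀ (by exact_mod_cast hp) (by omega)
    nlinarith
  -- the lower terms
  have hlow : Gt v ρ (∑ i ∈ Finset.range t, algebraMap k Ω (κ i) *
      coeff (p ^ (t + 1) • γ) (Λ ^ p ^ (i + 1))) := by
    refine Gt.sum _ _ fun i hi => ?_
    rw [Finset.mem_range] at hi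
    have h1 : p ^ (t + 1) • γ = p ^ (i + 1) • (p ^ (t - i) • γ) := by
      rw [smul_smul, ← pow_add]
      congr 2
      omega
    have h2 : Gt v ρ (coeff (p ^ (t + 1) • γ) (Λ ^ p ^ (i + 1))) := by
      rw [h1, coeff_pow_smul]
      intro h3
      have h0 : coeff (p ^ (t - i) • γ) Λ ≠ 0 := fun h4 => h3 (by
        rw [h4, zero_pow (by positivity)])
      rw [v.map_pow h0]
      push_cast
      have h6 : (0 : ℝ) < (p : ℝ) ^ (i + 1) := by positivity
      by_cases h4 : v (coeff (p ^ (t - i) • γ) Λ) ≤ 0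
      · have h5 := hbd _ h0 h4
        have h7 : wt w (p ^ (t + 1) • γ) = (p : ℝ) ^ (i + 1) * wt w (p ^ (t - i) • γ) := by
          rw [h1, wt_smul]
          push_cast
          ring
        have h8 : (p : ℝ) ^ (i + 1) < (p : ℝ) ^ (t + 1) :=
          pow_lt_pow_right₀ (by exact_mod_cast hp) (by omega)
        rw [hρ', h7]
        nlinarith
      · push Not at h4
        have : 0 < (p : ℝ) ^ (i + 1) * v (coeff (p ^ (t - i) • γ) Λ) := by positivity
        linarith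
    rw [mul_comm (algebraMap k Ω (κ i))]
    have h3 := Gt.mul_ge h2 (hk.ge (κ i))
    rwa [add_zero] at h3
  have hFγ : Gt v ρ (coeff (p ^ (t + 1) • γ) F) :=
    Gt.of_ge (hF _) (by rw [hρ']; linarith)
  have hEγ : Gt v ρ (coeff (p ^ (t + 1) • γ) Err) := by
    by_cases h1 : wt w (p ^ (t + 1) • γ) ≤ max c ome
    · refine Gt.of_ge ((hErr' _).1 h1) ?_
      rw [hρ']
      have : max c ome < (p : ℝ) ^ (t + 1) * c := max_lt hcQ (by linarith)
      linarith
    · push Not at h1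
      exact Gt.mono ((hErr' _).2 h1) hρ0
  have htot : Gt v ρ (coeff (p ^ (t + 1) • γ) (PP p κ t Λ + F + Err)) :=
    Gt.mono (hKR _) hρ0
  rw [coeff_add, coeff_add, coeff_PPΩ, Finset.sum_range_succ] at htot
  have htop : Gt v ρ (algebraMap k Ω (κ t) *
      coeff (p ^ (t + 1) • γ) (Λ ^ p ^ (t + 1))) := by
    have h1 := ((htot.sub hEγ).sub hFγ).sub hlow
    have h2 : ∀ A B D E : Ω, A + B + D + E - E - D - A = B := fun A B D E => by ring
    rwa [h2] at h1
  rw [coeff_pow_smul] at htop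
  have hκ' : algebraMap k Ω (κ t) ≠ 0 := by simpa using hκ
  have h1 := htop (mul_ne_zero hκ' (pow_ne_zero _ hγ1))
  rw [v.map_mul hκ' (pow_ne_zero _ hγ1), hk.triv _ hκ, zero_add, v.map_pow hγ1] at h1
  push_cast at h1
  exact lt_irrefl _ h1

omit [Fact p.Prime] [CharP k p] in
/-- Passing to the top form. -/
theorem gt_top (hk : Ctx0 k v) (hw : ∀ i, 0 ≤ w i) (hS : Siz v w y Φ) (hpos : Pos v w Φ)
    {d : ℝ} {G : MvPolynomial (Fin 2) k} (hG : ∀ m ∈ G.support, wt w m ≤ d) {β : Ex}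
    (h : wt w β ≤ d → Gt v (wt w β - d) (coeff β (LL k y Φ G - mp Ω G))) :
    Gt v (wt w β - d) (coeff β (LL k y Φ (tpp w d G) - mp Ω (tpp w d G))) := by
  classical
  have hTs : ∀ m : Ex, m ∈ (tpp w d G).support → wt w m = d := by
    intro m hm
    rw [mem_support_iff, coeff_tpp] at hm
    by_contra h1
    exact hm (if_neg h1)
  by_cases hβ : wt w β ≤ d
  · set G' := G - tpp w d G with hG'
    have hG's : ∀ m ∈ G'.support, wt w m < d := by
      intro m hm
      rw [mem_support_iff, hG', coeff_sub, coeff_tpp] at hm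
      split_ifs at hm with h1
      · exact absurd (sub_self _) hm
      · rw [sub_zero] at hm
        exact lt_of_le_of_ne (hG m (mem_support_iff.mpr hm)) h1
    have h4 : LL k y Φ (tpp w d G) - mp Ω (tpp w d G) = (LL k y Φ G - mp Ω G) -
        (LL k y Φ G' - mp Ω G') := by
      rw [hG', map_sub, map_sub]
      ring
    rw [h4, coeff_sub, coeff_sub (R := Ω) (p := LL k y Φ G') (q := mp Ω G')]
    refine (h hβ).sub ((hS.gt hk hG's β).sub ?_)
    rw [coeff_mp]
    by_cases h0 : coeff β G' = 0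
    · rw [h0, map_zero]
      exact Gt.zero
    · exact Gt.of_ge (hk.ge _) (by linarith [hG's β (mem_support_iff.mpr h0)])
  · push Not at hβ
    rw [coeff_sub]
    refine ((hS.filP hk hw hpos fun m hm => (hTs m hm).le).pos β hβ).sub ?_
    rw [coeff_mp]
    have h0 : coeff β (tpp w d G) = 0 := by
      by_contra h1
      have := hTs β (mem_support_iff.mpr h1)
      linarith
    rw [h0, map_zero]
    exact Gt.zero

/-- The top form of `G` from the key relation. -/
theorem key_of_kr (hk : Ctx0 k v) (hw : ∀ i, 0 ≤ w i) (hS : Siz v w y Φ)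
    (hpos : Pos v w Φ) {d ome : ℝ} (hd : 0 < d) (hod : ome < d) {G : MvPolynomial (Fin 2) k}
    (hG : ∀ m ∈ G.support, wt w m ≤ d) {Λ Err : MvPolynomial (Fin 2) Ω}
    (hErr : ∀ e, ome ≤ e → FilM v w e Λ → FilM v w e Err)
    (hKR : ∀ β : Ex, VPos v (coeff β (PP p κ t Λ + (LL k y Φ G - mp Ω G) + Err)))
    (hΛ : FilM v w (d / (p : ℝ) ^ (t + 1)) Λ) (β : Ex) (hβ : ∀ α, β ≠ p ^ (t + 1) • α) :
    Gt v (wt w β - d) (coeff β (LL k y Φ (tpp w d G) - mp Ω (tpp w d G))) := by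
  classical
  have : CharP Ω p := charP_of_injective_algebraMap (algebraMap k Ω).injective p
  have hp : 1 < p := Nat.Prime.one_lt Fact.out
  have hQ : (0 : ℝ) < (p : ℝ) ^ (t + 1) := by positivity
  have hQ1 : (1 : ℝ) < (p : ℝ) ^ (t + 1) := one_lt_pow₀ (by exact_mod_cast hp) (by omega)
  have hdQ : d / (p : ℝ) ^ (t + 1) < d := div_lt_self hd hQ1
  refine gt_top hk hw hS hpos hG fun hβd => ?_
  set e' := max (d / (p : ℝ) ^ (t + 1)) ome with he'
  have he'd : e' < d := max_lt hdQ hod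
  have hE := hErr e' (le_max_right _ _) (hΛ.mono (le_max_left _ _))
  have hEβ : Gt v (wt w β - d) (coeff β Err) := by
    by_cases h1 : wt w β ≤ e'
    · exact Gt.of_ge ((hE β).1 h1) (by linarith)
    · push Not at h1
      exact Gt.mono ((hE β).2 h1) (by linarith)
  have hPβ : Gt v (wt w β - d) (coeff β (PP p κ t Λ)) := by
    rw [coeff_PPΩ]
    refine Gt.sum _ _ fun i hi => ?_
    rw [Finset.mem_range] at hi
    have h2 : Gt v (wt w β - d) (coeff β (Λ ^ p ^ (i + 1))) := by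
      intro h3
      obtain ⟨γ, hγ, hγ1⟩ := exists_of_coeff_pow p Λ (i + 1) h3
      have hit : i < t := by
        by_contra h4
        have : i = t := by omega
        rw [this] at hγ
        exact hβ γ hγ
      have h6 : (0 : ℝ) < (p : ℝ) ^ (i + 1) := by positivity
      have h7 : wt w β = (p : ℝ) ^ (i + 1) * wt w γ := by
        rw [hγ, wt_smul]
        push_cast
        ring
      have h8 : (p : ℝ) ^ (i + 1) < (p : ℝ) ^ (t + 1) :=
        pow_lt_pow_right₀ (by exact_mod_cast hp) (by omega)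
      rw [hγ, coeff_pow_smul, v.map_pow hγ1, ← hγ]
      push_cast
      by_cases h4 : wt w γ ≤ d / (p : ℝ) ^ (t + 1)
      · have h5 := (hΛ γ).1 h4 hγ1
        have h9 : (p : ℝ) ^ (i + 1) * (d / (p : ℝ) ^ (t + 1)) < d := by
          rw [← mul_div_assoc, div_lt_iff₀ hQ]
          nlinarith
        rw [h7]
        nlinarith
      · push Not at h4
        have h5 := (hΛ γ).2 h4 hγ1
        have : 0 < (p : ℝ) ^ (i + 1) * v (coeff γ Λ) := by positivity
        linarith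
    rw [mul_comm (algebraMap k Ω (κ i))]
    have h3 := Gt.mul_ge h2 (hk.ge (κ i))
    rwa [add_zero] at h3
  have htot : Gt v (wt w β - d)
      (coeff β (PP p κ t Λ + (LL k y Φ G - mp Ω G) + Err)) := Gt.mono (hKR β) (by linarith)
  rw [coeff_add, coeff_add] at htot
  have h1 := (htot.sub hEβ).sub hPβ
  have h2 : ∀ A B D : Ω, A + B + D - D - A = B := fun A B D => by ring
  rwa [h2] at h1

/-- The noise relation: the defect of invariance is smaller than the displacement. -/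
def NRel (v : RVal Ω) (w : Fin 2 → ℝ) (y : Fin 2 → Ω) (Φ : Polynomial Ω)
    (Λ : MvPolynomial (Fin 2) Ω) (N : MvPolynomial (Fin 2) k) : Prop :=
  ∀ e, FilM v w e Λ → ∀ β : Ex, wt w β ≤ e → Gt v (wt w β - e) (coeff β (LL k y Φ N - mp Ω N))

omit [Fact p.Prime] [CharP k p] in
/-- Noise polynomials have small weight. -/
theorem noise_lt (hk : Ctx0 k v) (hw : ∀ i, 0 ≤ w i) (hS : Siz v w y Φ) (hpos : Pos v w Φ)
    (hD : Dns k v w y Φ) {e₀ : ℝ} {Λ : MvPolynomial (Fin 2) Ω} (hΛ : FilM v w e₀ Λ)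
    {N : MvPolynomial (Fin 2) k} (hN : NRel v w y Φ Λ N) :
    ∀ m ∈ N.support, wt w m < e₀ ∨ wt w m ≤ 0 := by
  classical
  intro m hm
  by_contra hcon
  push Not at hcon
  obtain ⟨m₀, hm₀, hmax⟩ := N.support.exists_max_image (wt w) ⟨m, hm⟩
  set e := wt w m₀ with he
  have he₀ : e₀ ≤ e := hcon.1.trans (hmax m hm)
  have he0 : 0 < e := hcon.2.trans_le (hmax m hm)
  have h1 := hN e (hΛ.mono he₀)
  have h2 : tpp w e N = 0 := by
    refine hD e he0 _ ?_ fun β => gt_top hk hw hS hpos hmax (h1 β)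
    intro m' hm'
    rw [mem_support_iff, coeff_tpp] at hm'
    by_contra h3
    exact hm' (if_neg h3)
  have h3 : coeff m₀ (tpp w e N) = coeff m₀ N := by
    rw [coeff_tpp, if_pos rfl]
  rw [h2, coeff_zero] at h3
  exact (mem_support_iff.mp hm₀) h3.symm

/-- **The plane lemma.** -/
theorem plane [IsAlgClosed k] (hk : Ctx0 k v) (hκ : κ t ≠ 0) (hw0 : 0 ≤ w 0)
    (hw01 : w 0 ≤ w 1) (hw1 : 0 < w 1) (hS : Siz v w y Φ) (hpos : Pos v w Φ)
    (hy : 0 < w 0 → y 0 ≠ 0 ∧ v (y 0) = -(w 0)) (hD : Dns k v w y Φ)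
    {G : MvPolynomial (Fin 2) k} (Λ : MvPolynomial (Fin 2) k → MvPolynomial (Fin 2) Ω)
    {ome : ℝ} (ho0 : 0 ≤ ome) (ho1 : ome ≤ w 1)
    (hKR : ∀ f : MvPolynomial (Fin 2) k, constantCoeff f = 0 →
      ∃ Err : MvPolynomial (Fin 2) Ω,
        (∀ β : Ex, VPos v (coeff β (PP p κ t (Λ f) +
          (LL k y Φ (G + PP p κ t f) - mp Ω (G + PP p κ t f)) + Err))) ∧
        ∀ e, ome ≤ e → FilM v w e (Λ f) → FilM v w e Err) :
    ∃ f : MvPolynomial (Fin 2) k, constantCoeff f = 0 ∧ FilM v w (w 1 / p) (Λ f) ∧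
      ∀ N : MvPolynomial (Fin 2) k, NRel v w y Φ (Λ f) N → ∀ m ∈ N.support, m 1 = 0 := by
  classical
  have hp : 1 < p := Nat.Prime.one_lt Fact.out
  have hQ : (0 : ℝ) < (p : ℝ) ^ (t + 1) := by positivity
  have hpR : (0 : ℝ) < (p : ℝ) := by positivity
  have hw : ∀ i, 0 ≤ w i := fun i => by
    fin_cases i
    · exact hw0
    · exact hw0.trans hw01
  obtain ⟨f, hf0, hfred⟩ := exists_red (κ := κ) (t := t) (p := p) hκ G
  obtain ⟨Err, hE1, hE2⟩ := hKR f hf0
  set G' := G + PP p κ t f with hG'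
  have hFil : FilM v w (w 1 / p) (Λ f) := by
    have hfilF : ∀ d : ℝ, (∀ m ∈ G'.support, wt w m ≤ d) → 0 ≤ d →
        Fil v w d (LL k y Φ G' - mp Ω G') := by
      intro d hd hd0
      refine (hS.fil hk hd).sub fun β => ?_
      rw [coeff_mp]
      by_cases h0 : coeff β G' = 0
      · rw [h0, map_zero]
        exact fun h => absurd rfl h
      · exact (hk.ge _).mono (by linarith [hd β (mem_support_iff.mpr h0)])
    have hle : ∀ x : ℝ, x ≤ (p : ℝ) ^ t * w 1 → x / (p : ℝ) ^ (t + 1) ≤ w 1 / p := by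
      intro x hx
      rw [div_le_div_iff₀ hQ hpR, pow_succ]
      nlinarith
    have hone : (1 : ℝ) ≤ (p : ℝ) ^ t := one_le_pow₀ (by exact_mod_cast hp.le)
    by_cases hbig : ∃ m ∈ G'.support, ome < wt w m
    · obtain ⟨m, hm, hmo⟩ := hbig
      obtain ⟨m₀, hm₀, hmax⟩ := G'.support.exists_max_image (wt w) ⟨m, hm⟩
      set d := wt w m₀ with hd
      have hod : ome < d := hmo.trans_le (hmax m hm)
      have hd0 : 0 < d := lt_of_le_of_lt ho0 hod
      have h1 := filM_of_kr hk hκ hd0.le hod.le (hfilF d hmax hd0.le) hE2 hE1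
      refine h1.mono (hle _ ?_)
      refine top_bound (p := p) (t := t) hk hw0 hw01 hy hD hd0 (G := G') ⟨m₀, hm₀, rfl⟩ ?_
        (key_of_kr hk hw hS hpos hd0 hod hmax hE2 hE1 h1)
      intro m' hm' hmd α hα
      have hα0 : α ≠ 0 := by
        rintro rfl
        rw [hα, smul_zero, wt_zero] at hmd
        linarith
      rw [hα] at hm'
      exact (mem_support_iff.mp hm') (hfred α hα0)
    · push Not at hbig
      have h1 := filM_of_kr hk hκ ho0 le_rfl (hfilF ome hbig ho0) hE2 hE1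
      refine h1.mono (hle _ ?_)
      nlinarith
  refine ⟨f, hf0, hFil, fun N hN m hm => ?_⟩
  by_contra hne
  have h1 : (1 : ℝ) ≤ m 1 := by exact_mod_cast Nat.one_le_iff_ne_zero.mpr hne
  have h2 : w 1 ≤ wt w m := by
    unfold wt
    have : 0 ≤ (m 0 : ℝ) * w 0 := by positivity
    nlinarith
  rcases noise_lt hk hw hS hpos hD hFil hN m hm with h3 | h3
  · have h4 : w 1 / p ≤ w 1 := div_le_self hw1.le (by exact_mod_cast hp.le)
    linarith
  · linarith

end main

end Pool.Agent.TWLG64
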