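import Pool.Agent.Lib.TWLG64.Plane
import Pool.Agent.Lib.TWLG76.Pos

/-!
# The plane lemma, integral form

The inputs are known modulo the valuation ring only, so the top form is seen in the weights below the top.
-/

set_option autoImplicit false

namespace Pool.Agent.TWLG64

open MvPolynomial
open TWIV.JW (BB sh cz)
open Pool.Agent.H15JM (RVal)
open Pool.Agent.LU1 (VPos)
open Pool.Agent.D2 (Ctx0)
open Pool.Agent.TWM (Gt)
open Pool.Agent.TWLY

universe u

/-- Density, from the weights below the top. -/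
def DnsL (k : Type u) {Ω : Type u} [Field k] [Field Ω] [Algebra k Ω] (v : RVal Ω)
    (w : Fin 2 → ℝ) (y : Fin 2 → Ω) (Φ : Polynomial Ω) : Prop :=
  ∀ d : ℝ, 0 < d → ∀ H : MvPolynomial (Fin 2) k, (∀ m ∈ H.support, wt w m = d) →
    (∀ β : Ex, wt w β < d → Gt v (wt w β - d) (coeff β (LL k y Φ H))) → H = 0

section bound

variable {k Ω : Type u} [Field k] [Field Ω] [Algebra k Ω] {v : RVal Ω} {w : Fin 2 → ℝ}
  {p : ℕ} [Fact p.Prime] [CharP k p] {κ : ℕ → k} {t : ℕ} {y : Fin 2 → Ω} {Φ : Polynomial Ω}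

/-- The bound for the top form, from the weights below the top. -/
theorem top_boundL (hk : Ctx0 k v) (hw0 : 0 ≤ w 0) (hw01 : w 0 ≤ w 1)
    (hy : 0 < w 0 → y 0 ≠ 0 ∧ v (y 0) = -(w 0)) (hD : DnsL k v w y Φ)
    {d : ℝ} (hd : 0 < d) {G : MvPolynomial (Fin 2) k}
    (hG1 : ∃ m ∈ G.support, wt w m = d)
    (hG2 : ∀ m ∈ G.support, wt w m = d → ∀ α, m ≠ p ^ (t + 1) • α)
    (hkey : ∀ β : Ex, (∀ α, β ≠ p ^ (t + 1) • α) → wt w β < d →
      Gt v (wt w β - d) (coeff β (LL k y Φ (tpp w d G)))) :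
    d ≤ (p : ℝ) ^ t * w 1 := by
  classical
  have : CharP Ω p := charP_of_injective_algebraMap (algebraMap k Ω).injective p
  have hp : 1 < p := Nat.Prime.one_lt Fact.out
  have hw : ∀ i, 0 ≤ w i := fun i => by
    fin_cases i
    · exact hw0
    · exact hw0.trans hw01
  have hQpos : 0 < p ^ (t + 1) := by positivity
  set T := tpp w d G with hT
  have hTs : ∀ m : Ex, m ∈ T.support ↔ m ∈ G.support ∧ wt w m = d := by
    intro m
    rw [mem_support_iff, hT, coeff_tpp, mem_support_iff]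
    split_ifs with h1
    · simp [h1]
    · simp [h1]
  have hpt : ∀ j ≤ t, ∀ i, (p : ℝ) ^ j * w i ≤ (p : ℝ) ^ t * w 1 := by
    intro j hj i
    have h1 : (p : ℝ) ^ j ≤ (p : ℝ) ^ t := pow_le_pow_right₀ (by exact_mod_cast hp.le) hj
    have h3 : w i ≤ w 1 := by
      fin_cases i
      · exact hw01
      · exact le_rfl
    have h4 := hw i
    have h5 : (0 : ℝ) < (p : ℝ) ^ j := by positivity
    have h6 := hw 1
    calc (p : ℝ) ^ j * w i ≤ (p : ℝ) ^ j * w 1 := by gcongr
      _ ≤ (p : ℝ) ^ t * w 1 := by gcongr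
  by_cases hc1 : ∃ m ∈ T.support, ¬ p ^ (t + 1) ∣ m 1
  · -- the second variable
    obtain ⟨m', hm', hndvd⟩ := hc1
    have hm1 : m' 1 ≠ 0 := by
      intro h
      exact hndvd (by rw [h]; exact dvd_zero _)
    obtain ⟨j, c, hc, hjc⟩ := Nat.exists_eq_pow_mul_and_not_dvd hm1 p hp.ne'
    have hjt : j ≤ t := by
      by_contra h
      push Not at h
      exact hndvd (by rw [hjc]; exact (pow_dvd_pow p h).mul_right c)
    have hc0 : c ≠ 0 := by
      rintro rfl
      exact hc (dvd_zero _)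
    set b := p ^ j with hb
    by_contra hcon
    push Not at hcon
    have hd' : 0 < d - b * w 1 := by
      have := hpt j hjt 1
      rw [hb]
      push_cast
      linarith
    have hH : dc b T = 0 := by
      refine hD (d - b * w 1) hd' (dc b T) ?_ ?_
      · intro m hm
        rw [mem_support_iff, coeff_dc] at hm
        have h1 := (hTs _).mp (mem_support_iff.mpr (right_ne_zero_of_mul hm))
        have h4 := h1.2
        rw [wt_add, wt_single] at h4
        linarith
      · intro β hβd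
        rw [← dc_LL, coeff_dc]
        have hwt : wt w (β + Finsupp.single 1 b) - d = wt w β - (d - b * w 1) := by
          rw [wt_add, wt_single]
          ring
        by_cases h1 : ∀ α, β + Finsupp.single 1 b ≠ p ^ (t + 1) • α
        · have h4 := hkey _ h1 (by
            rw [wt_add, wt_single]
            linarith)
          rw [hwt] at h4
          rw [mul_comm (((β 1 + b).choose b : ℕ) : Ω)]
          have h5 : v.Ge 0 (((β 1 + b).choose b : ℕ) : Ω) := TWM.ge_natCast v _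
          have h6 := Gt.mul_ge h4 h5
          rwa [add_zero] at h6
        · push Not at h1
          obtain ⟨α, hα⟩ := h1
          have h4 := DFunLike.congr_fun hα 1
          simp only [Finsupp.add_apply, Finsupp.single_eq_same, Finsupp.smul_apply,
            smul_eq_mul] at h4
          have h5 : (((β 1 + b).choose b : ℕ) : Ω) = 0 := by
            rw [CharP.cast_eq_zero_iff Ω p]
            have h6 : p ^ (t + 1) * α 1 = p ^ j * (p ^ (t + 1 - j) * α 1) := by
              rw [← mul_assoc, ← pow_add]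
              congr 2
              omega
            have h7 := choose_pow_mul p j (p ^ (t + 1 - j) * α 1) 1
            rw [mul_one, Nat.choose_one_right, ← h6, ← h4, ← hb] at h7
            refine Nat.modEq_zero_iff_dvd.mp (h7.trans (Nat.modEq_zero_iff_dvd.mpr ?_))
            exact (dvd_pow_self p (by omega)).mul_right _
          rw [h5, zero_mul]
          exact Gt.zero
    have h1 : coeff (mk (m' 0) (m' 1 - b)) (dc b T) = 0 := by rw [hH, coeff_zero]
    have hbm : b ≤ m' 1 := by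
      rw [hjc, hb]
      exact Nat.le_mul_of_pos_right _ (Nat.pos_of_ne_zero hc0)
    have h4 : mk (m' 0) (m' 1 - b) + Finsupp.single 1 b = m' := by
      refine ex_ext ?_ ?_
      · simp
      · simp
        omega
    rw [coeff_dc, h4, mk_one', Nat.sub_add_cancel hbm] at h1
    rcases mul_eq_zero.mp h1 with h5 | h5
    · rw [CharP.cast_eq_zero_iff k p] at h5
      have h7 := choose_pow_mul p j c 1
      rw [mul_one, Nat.choose_one_right, ← hjc, ← hb] at h7
      exact hc (Nat.modEq_zero_iff_dvd.mp (h7.symm.trans (Nat.modEq_zero_iff_dvd.mpr h5)))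
    · exact (mem_support_iff.mp hm') h5
  · -- all exponents of the second variable are divisible by `p ^ (t + 1)`
    push Not at hc1
    have hTne : T.support.Nonempty := by
      obtain ⟨m, hm, hmd⟩ := hG1
      exact ⟨m, (hTs m).mpr ⟨hm, hmd⟩⟩
    obtain ⟨ms, hms, hmax⟩ := T.support.exists_max_image (fun m => m 0 % p ^ (t + 1)) hTne
    set i₀ := ms 0 % p ^ (t + 1) with hi₀
    have hi₀Q : i₀ < p ^ (t + 1) := Nat.mod_lt _ hQpos
    have hres : ∀ m ∈ T.support, m 0 % p ^ (t + 1) ≠ 0 := by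
      intro m hm h0
      obtain ⟨a, ha⟩ := Nat.dvd_of_mod_eq_zero h0
      obtain ⟨b, hb⟩ := hc1 m hm
      have h1 := (hTs m).mp hm
      refine hG2 m h1.1 h1.2 (mk a b) (ex_ext ?_ ?_)
      · simp [ha]
      · simp [hb]
    have hi₀0 : i₀ ≠ 0 := hres ms hms
    set H : MvPolynomial (Fin 2) k := ∑ m ∈ T.support with m 0 % p ^ (t + 1) = i₀,
      monomial (m - Finsupp.single 0 i₀) (coeff m T) with hHdef
    have hsub : ∀ m : Ex, m 0 % p ^ (t + 1) = i₀ →
        m - Finsupp.single 0 i₀ + Finsupp.single 0 i₀ = m := by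
      intro m hm
      refine tsub_add_cancel_of_le ?_
      intro a
      fin_cases a
      · simp only [Fin.zero_eta, Finsupp.single_eq_same]
        rw [← hm]
        exact Nat.mod_le _ _
      · simp
    have hcoH : ∀ m : Ex, m 0 % p ^ (t + 1) = i₀ →
        coeff (m - Finsupp.single 0 i₀) H = coeff m T := by
      intro m hm
      rw [hHdef, coeff_sum]
      simp_rw [coeff_monomial]
      by_cases h0 : m ∈ T.support
      · rw [Finset.sum_eq_single m]
        · rw [if_pos rfl]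
        · intro m'' hm'' hne
          rw [Finset.mem_filter] at hm''
          rw [if_neg]
          intro h1
          apply hne
          rw [← hsub m'' hm''.2, h1, hsub m hm]
        · intro h1
          exact absurd (Finset.mem_filter.mpr ⟨h0, hm⟩) h1
      · rw [notMem_support_iff.mp h0]
        refine Finset.sum_eq_zero fun m'' hm'' => ?_
        rw [Finset.mem_filter] at hm''
        rw [if_neg]
        intro h1
        apply h0
        rw [← hsub m hm, ← h1, hsub m'' hm''.2]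
        exact hm''.1
    have hHs : ∀ m ∈ H.support, ∃ m' ∈ T.support, m' 0 % p ^ (t + 1) = i₀ ∧
        m = m' - Finsupp.single 0 i₀ := by
      intro m hm
      rw [mem_support_iff, hHdef, coeff_sum] at hm
      obtain ⟨m', hm', h1⟩ := Finset.exists_ne_zero_of_sum_ne_zero hm
      rw [Finset.mem_filter] at hm'
      rw [coeff_monomial] at h1
      split_ifs at h1 with h4
      · exact ⟨m', hm'.1, hm'.2, h4.symm⟩
      · exact absurd rfl h1
    -- the translate of `H`
    have hLH : ∀ α : Ex, coeff (p ^ (t + 1) • α) (LL k y Φ H) =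
        coeff (p ^ (t + 1) • α + Finsupp.single 0 i₀) (LL k y Φ T) := by
      intro α
      conv_rhs => rw [T.as_sum]
      rw [hHdef, map_sum, map_sum, coeff_sum, coeff_sum, Finset.sum_filter]
      refine Finset.sum_congr rfl fun m hm => ?_
      obtain ⟨M, hM1, hM2, hM3⟩ := LL_split (y := y) (Φ := Φ) (m := m) (t := t) rfl
        (hc1 m hm) (coeff m T)
      rw [hM2, coeff_res (hmax m hm) hi₀Q _ hM1]
      split_ifs with h1
      · rw [← hM3, h1]
      · rfl
    have hQH : Qd (p ^ (t + 1)) (LL k y Φ H) := by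
      intro β hβ
      rw [hHdef, map_sum, coeff_sum] at hβ
      obtain ⟨m, hm, h1⟩ := Finset.exists_ne_zero_of_sum_ne_zero hβ
      rw [Finset.mem_filter] at hm
      obtain ⟨M, hM1, hM2, hM3⟩ := LL_split (y := y) (Φ := Φ) (m := m) (t := t) rfl
        (hc1 m hm.1) (coeff m T)
      rw [hm.2] at hM3
      rw [hM3] at h1
      exact hM1 _ h1
    have hHw : ∀ m ∈ H.support, wt w m = d - i₀ * w 0 := by
      intro m hm
      obtain ⟨m', hm', h4, h5⟩ := hHs m hm
      have h6 := ((hTs m').mp hm').2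
      rw [← hsub m' h4, wt_add, wt_single, ← h5] at h6
      linarith
    have hdi : d ≤ i₀ * w 0 := by
      by_contra hcon
      push Not at hcon
      have hH0 : H = 0 := by
        refine hD (d - i₀ * w 0) (by linarith) H hHw fun β hβd => ?_
        by_cases hβ : ∃ α, β = p ^ (t + 1) • α
        · obtain ⟨α, rfl⟩ := hβ
          have hnot : ∀ α', p ^ (t + 1) • α + Finsupp.single 0 i₀ ≠ p ^ (t + 1) • α' := by
            intro α' h1
            have h4 := DFunLike.congr_fun h1 0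
            simp only [Finsupp.add_apply, Finsupp.smul_apply, Finsupp.single_eq_same,
              smul_eq_mul] at h4
            have h5 : p ^ (t + 1) ∣ i₀ :=
              (Nat.dvd_add_right ⟨α 0, rfl⟩).mp ⟨α' 0, h4⟩
            exact hi₀0 (Nat.eq_zero_of_dvd_of_lt h5 hi₀Q)
          have h1 := hkey _ hnot (by
            rw [wt_add, wt_single]
            linarith)
          rw [hLH]
          rw [wt_add, wt_single] at h1
          have h5 : wt w (p ^ (t + 1) • α) + i₀ * w 0 - d =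
              wt w (p ^ (t + 1) • α) - (d - i₀ * w 0) := by ring
          rwa [h5] at h1
        · have h1 : coeff β (LL k y Φ H) = 0 := by
            by_contra h4
            exact hβ (hQH β h4)
          rw [h1]
          exact Gt.zero
      have h1 := hcoH ms hi₀.symm
      rw [hH0, coeff_zero] at h1
      exact (mem_support_iff.mp hms) h1.symm
    have hw0pos : 0 < w 0 := by
      by_contra h
      push Not at h
      have h1 : w 0 = 0 := le_antisymm h hw0
      rw [h1, mul_zero] at hdi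
      linarith
    have hw1pos : 0 < w 1 := hw0pos.trans_le hw01
    -- all monomials are the same
    have hsame : ∀ m ∈ T.support, m = Finsupp.single 0 (m 0 % p ^ (t + 1)) := by
      intro m hm
      have h1 := ((hTs m).mp hm).2
      obtain ⟨b, hb⟩ := hc1 m hm
      have hdm := Nat.div_add_mod (m 0) (p ^ (t + 1))
      have hdm' : ((m 0 : ℕ) : ℝ) = (p : ℝ) ^ (t + 1) * ((m 0 / p ^ (t + 1) : ℕ) : ℝ) +
          ((m 0 % p ^ (t + 1) : ℕ) : ℝ) := by exact_mod_cast hdm.symm
      have hb' : ((m 1 : ℕ) : ℝ) = (p : ℝ) ^ (t + 1) * (b : ℝ) := by exact_mod_cast hb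
      have hi0r : (i₀ : ℝ) < (p : ℝ) ^ (t + 1) := by exact_mod_cast hi₀Q
      have hQr : (0 : ℝ) < (p : ℝ) ^ (t + 1) := by positivity
      unfold wt at h1
      rw [hdm', hb'] at h1
      have hlt : (p : ℝ) ^ (t + 1) * ((m 0 / p ^ (t + 1) : ℕ) : ℝ) * w 0 +
          (p : ℝ) ^ (t + 1) * (b : ℝ) * w 1 < (p : ℝ) ^ (t + 1) * w 0 := by
        have h4 : (0 : ℝ) ≤ ((m 0 % p ^ (t + 1) : ℕ) : ℝ) * w 0 := by positivity
        nlinarith
      have hl0 : m 0 / p ^ (t + 1) = 0 := by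
        by_contra h4
        have h5 : (1 : ℝ) ≤ ((m 0 / p ^ (t + 1) : ℕ) : ℝ) := by
          exact_mod_cast Nat.one_le_iff_ne_zero.mpr h4
        have h6 : (p : ℝ) ^ (t + 1) * w 0 ≤
            (p : ℝ) ^ (t + 1) * ((m 0 / p ^ (t + 1) : ℕ) : ℝ) * w 0 := by
          have : 0 < (p : ℝ) ^ (t + 1) * w 0 := by positivity
          nlinarith
        have h7 : (0 : ℝ) ≤ (p : ℝ) ^ (t + 1) * (b : ℝ) * w 1 := by positivity
        linarith
      have hb0 : b = 0 := by
        by_contra h4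
        have h5 : (1 : ℝ) ≤ (b : ℝ) := by exact_mod_cast Nat.one_le_iff_ne_zero.mpr h4
        have h6 : (p : ℝ) ^ (t + 1) * w 0 ≤ (p : ℝ) ^ (t + 1) * (b : ℝ) * w 1 := by
          have h8 : (p : ℝ) ^ (t + 1) * w 0 ≤ (p : ℝ) ^ (t + 1) * w 1 := by nlinarith
          have h9 : 0 < (p : ℝ) ^ (t + 1) * w 1 := by positivity
          nlinarith
        have h7 : (0 : ℝ) ≤ (p : ℝ) ^ (t + 1) * ((m 0 / p ^ (t + 1) : ℕ) : ℝ) * w 0 := by
          positivity
        linarith
      refine ex_ext ?_ ?_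
      · rw [Finsupp.single_eq_same]
        rw [hl0, mul_zero, zero_add] at hdm
        exact hdm.symm
      · rw [hb, hb0, mul_zero]
        simp
    have hmss : ms = Finsupp.single 0 i₀ := hsame ms hms
    have hdeq : d = i₀ * w 0 := by
      have h1 := ((hTs ms).mp hms).2
      rw [hmss, wt_single] at h1
      exact h1.symm
    have hall : ∀ m ∈ T.support, m = Finsupp.single 0 i₀ := by
      intro m hm
      have h1 := hsame m hm
      have h4 := ((hTs m).mp hm).2
      rw [h1, wt_single, hdeq] at h4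
      have h5 := mul_right_cancel₀ hw0pos.ne' h4
      have h6 : m 0 % p ^ (t + 1) = i₀ := by exact_mod_cast h5
      rw [h1, h6]
    set a := coeff (Finsupp.single 0 i₀ : Ex) T with ha
    have ha0 : a ≠ 0 := by
      rw [ha, ← hmss]
      exact mem_support_iff.mp hms
    have hTm : T = monomial (Finsupp.single 0 i₀) a := by
      ext m
      rw [coeff_monomial]
      split_ifs with h1
      · rw [← h1]
      · by_contra h4
        exact h1 (hall m (mem_support_iff.mpr h4)).symm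
    -- `i₀` is a power of `p`
    have hpow : ∃ a, i₀ = p ^ a := by
      by_contra hnp
      push Not at hnp
      obtain ⟨j, l, hj, hl, hjl, hch⟩ := exists_split_nat p Ω hi₀0 hnp
      have hβ : ∀ α, (Finsupp.single 0 j : Ex) ≠ p ^ (t + 1) • α := by
        intro α h1
        have h4 := DFunLike.congr_fun h1 0
        rw [Finsupp.single_eq_same, Finsupp.smul_apply, smul_eq_mul] at h4
        exact hj (Nat.eq_zero_of_dvd_of_lt ⟨_, h4⟩ (by omega))
      have h1 := hkey _ hβ (by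
        rw [wt_single, hdeq]
        have : (j : ℝ) < i₀ := by exact_mod_cast (by omega : j < i₀)
        nlinarith)
      have h4 : coeff (Finsupp.single 0 j : Ex) (LL k y Φ T) =
          algebraMap k Ω a * (y 0 ^ (i₀ - j) * (i₀.choose j : Ω)) := by
        rw [hTm, LL, aeval_monomial, Finsupp.prod_fintype _ _ (by simp), Fin.prod_univ_two,
          IsScalarTower.algebraMap_apply k Ω (MvPolynomial (Fin 2) Ω), algebraMap_eq,
          coeff_C_mul]
        congr 1
        have e1 : (Finsupp.single 0 i₀ : Ex) 1 = 0 := by simp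
        rw [e1, pow_zero, mul_one, Finsupp.single_eq_same]
        simp only [Matrix.cons_val_zero]
        rw [add_pow, coeff_sum, Finset.sum_eq_single j]
        · rw [X_pow_eq_monomial, ← C_pow]
          have e2 : ((i₀.choose j : ℕ) : MvPolynomial (Fin 2) Ω) = C ((i₀.choose j : ℕ) : Ω) := by
            simp
          rw [e2, mul_assoc, ← C_mul, mul_comm, coeff_C_mul, coeff_monomial, if_pos rfl, mul_one]
        · intro j' _ hne
          rw [X_pow_eq_monomial, ← C_pow]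
          have e2 : ((i₀.choose j' : ℕ) : MvPolynomial (Fin 2) Ω) =
            C ((i₀.choose j' : ℕ) : Ω) := by simp
          rw [e2, mul_assoc, ← C_mul, mul_comm, coeff_C_mul, coeff_monomial, if_neg, mul_zero]
          intro h6
          exact hne (Finsupp.single_injective 0 h6)
        · intro h6
          exact absurd (Finset.mem_range.mpr (by omega)) h6
      rw [h4] at h1
      have hch' : ((i₀.choose j : ℕ) : Ω) ≠ 0 := by
        rw [← hjl]
        exact hch
      obtain ⟨hy0, hyv⟩ := hy hw0pos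
      have ha' : algebraMap k Ω a ≠ 0 := by simpa using ha0
      have hch'' : v ((i₀.choose j : ℕ) : Ω) = 0 := by
        have h6 : ((i₀.choose j : ℕ) : Ω) = algebraMap k Ω ((i₀.choose j : ℕ) : k) := by simp
        have h7 : ((i₀.choose j : ℕ) : k) ≠ 0 := fun h8 => hch' (by rw [h6, h8, map_zero])
        rw [h6, hk.triv _ h7]
      have h6 := h1 (mul_ne_zero ha' (mul_ne_zero (pow_ne_zero _ hy0) hch'))
      rw [v.map_mul ha' (mul_ne_zero (pow_ne_zero _ hy0) hch'), hk.triv _ ha0,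
        v.map_mul (pow_ne_zero _ hy0) hch', hch'', v.map_pow hy0, hyv, wt_single, hdeq,
        Nat.cast_sub (by omega)] at h6
      linarith
    obtain ⟨a', ha'⟩ := hpow
    have hat : a' ≤ t := by
      by_contra h
      push Not at h
      have : p ^ (t + 1) ≤ p ^ a' := Nat.pow_le_pow_right (by omega) h
      omega
    rw [hdeq, ha']
    push_cast
    exact hpt a' hat 0

end bound

/-! ## the inputs modulo the valuation ring -/

section main

variable {k Ω : Type u} [Field k] [Field Ω] [Algebra k Ω] {v : RVal Ω} {w : Fin 2 → ℝ}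
  {y : Fin 2 → Ω} {Φ : Polynomial Ω}

/-- combined weight at most `e`, modulo elements of size at most `ε` -/
def FilO (v : RVal Ω) (w : Fin 2 → ℝ) (ε e : ℝ) (F : MvPolynomial (Fin 2) Ω) : Prop :=
  ∀ β, v.Ge (min (-ε) (wt w β - e)) (coeff β F)

theorem FilO.mono {ε ε' e e' : ℝ} {F : MvPolynomial (Fin 2) Ω} (h : FilO v w ε e F)
    (hε : ε ≤ ε') (he : e ≤ e') : FilO v w ε' e' F := fun β =>
  (h β).mono (min_le_min (by linarith) (by linarith))

variable {p : ℕ} [Fact p.Prime] [CharP k p] {κ : ℕ → k} {t : ℕ}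

/-- The size of the displacement polynomial. -/
theorem filO_of_kr (hk : Ctx0 k v) (hκ : κ t ≠ 0) {d₀ ome : ℝ} (hd₀ : 0 ≤ d₀)
    (hod : ome ≤ d₀) {F Λ : MvPolynomial (Fin 2) Ω} (hF : Fil v w d₀ F)
    (hKR : ∀ ε : ℝ, 0 < ε → ∃ Err : MvPolynomial (Fin 2) Ω,
      (∀ β : Ex, v.Ge (-ε) (coeff β (PP p κ t Λ + F + Err))) ∧
      ∀ e, ome ≤ e → FilO v w 0 e Λ → FilO v w ε e Err) :
    FilO v w 0 (d₀ / (p : ℝ) ^ (t + 1)) Λ := by
  classical
  have : CharP Ω p := charP_of_injective_algebraMap (algebraMap k Ω).injective p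
  have hp : 1 < p := Nat.Prime.one_lt Fact.out
  have hQ : (0 : ℝ) < (p : ℝ) ^ (t + 1) := by positivity
  by_contra hcon
  -- a heavy coefficient
  have hex : ∃ β : Ex, coeff β Λ ≠ 0 ∧ v (coeff β Λ) < 0 ∧
      d₀ / (p : ℝ) ^ (t + 1) < wt w β - v (coeff β Λ) := by
    unfold FilO RVal.Ge at hcon
    push Not at hcon
    obtain ⟨β, h1, h2⟩ := hcon
    rw [neg_zero, lt_min_iff] at h2
    exact ⟨β, h1, h2.1, by linarith [h2.2]⟩
  set S : Finset Ex := {β ∈ Λ.support | v (coeff β Λ) < 0} with hS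
  have hmem : ∀ β : Ex, β ∈ S ↔ coeff β Λ ≠ 0 ∧ v (coeff β Λ) < 0 := by
    intro β
    rw [hS, Finset.mem_filter, mem_support_iff]
  obtain ⟨β₀, hβ₀1, hβ₀2, hβ₀3⟩ := hex
  obtain ⟨γ, hγ, hmax⟩ := S.exists_max_image (fun β => wt w β - v (coeff β Λ))
    ⟨β₀, (hmem β₀).mpr ⟨hβ₀1, hβ₀2⟩⟩
  obtain ⟨hγ1, hγ2⟩ := (hmem γ).mp hγ
  set c := wt w γ - v (coeff γ Λ) with hc
  have hcd : d₀ / (p : ℝ) ^ (t + 1) < c := lt_of_lt_of_le hβ₀3
    (hmax β₀ ((hmem β₀).mpr ⟨hβ₀1, hβ₀2⟩))
  have hd₀Q : 0 ≤ d₀ / (p : ℝ) ^ (t + 1) := by positivity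
  have hc0 : 0 < c := lt_of_le_of_lt hd₀Q hcd
  have hcd' : d₀ < (p : ℝ) ^ (t + 1) * c := by
    rw [div_lt_iff₀ hQ] at hcd
    linarith
  have hbd : ∀ β : Ex, coeff β Λ ≠ 0 → v (coeff β Λ) < 0 → wt w β - c ≤ v (coeff β Λ) := by
    intro β h1 h2
    have := hmax β ((hmem β).mpr ⟨h1, h2⟩)
    linarith
  have hΛc : FilO v w 0 c Λ := by
    intro β h0
    rw [neg_zero, min_le_iff]
    by_cases h1 : v (coeff β Λ) < 0
    · exact Or.inr (hbd β h0 h1)
    · exact Or.inl (not_lt.mp h1)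
  set ρ := (p : ℝ) ^ (t + 1) * v (coeff γ Λ) with hρ
  have hρ0 : ρ < 0 := mul_neg_of_pos_of_neg hQ hγ2
  obtain ⟨Err, hE1, hE2⟩ := hKR (-ρ / 2) (by linarith)
  have hErr' := hE2 (max c ome) (le_max_right _ _) (hΛc.mono le_rfl (le_max_left _ _))
  have hwt : wt w (p ^ (t + 1) • γ) = (p : ℝ) ^ (t + 1) * wt w γ := by
    rw [wt_smul]
    push_cast
    ring
  have hρ' : ρ = wt w (p ^ (t + 1) • γ) - (p : ℝ) ^ (t + 1) * c := by
    rw [hwt, hρ, hc]
    ring
  have hcQ : c < (p : ℝ) ^ (t + 1) * c := by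
    have h1 : (1 : ℝ) < (p : ℝ) ^ (t + 1) := one_lt_pow₀ (by exact_mod_cast hp) (by omega)
    nlinarith
  -- the lower terms
  have hlow : Gt v ρ (∑ i ∈ Finset.range t, algebraMap k Ω (κ i) *
      coeff (p ^ (t + 1) • γ) (Λ ^ p ^ (i + 1))) := by
    refine Gt.sum _ _ fun i hi => ?_
    rw [Finset.mem_range] at hi
    have h1 : p ^ (t + 1) • γ = p ^ (i + 1) • (p ^ (t - i) • γ) := by
      rw [smul_smul, ← pow_add]
      congr 2
      omega
    have h2 : Gt v ρ (coeff (p ^ (t + 1) • γ) (Λ ^ p ^ (i + 1))) := by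
      rw [h1, coeff_pow_smul]
      intro h3
      have h0 : coeff (p ^ (t - i) • γ) Λ ≠ 0 := fun h4 => h3 (by
        rw [h4, zero_pow (by positivity)])
      rw [v.map_pow h0]
      push_cast
      have h6 : (0 : ℝ) < (p : ℝ) ^ (i + 1) := by positivity
      by_cases h4 : v (coeff (p ^ (t - i) • γ) Λ) < 0
      · have h5 := hbd _ h0 h4
        have h7 : wt w (p ^ (t + 1) • γ) = (p : ℝ) ^ (i + 1) * wt w (p ^ (t - i) • γ) := by
          rw [h1, wt_smul]
          push_cast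
          ring
        have h8 : (p : ℝ) ^ (i + 1) < (p : ℝ) ^ (t + 1) :=
          pow_lt_pow_right₀ (by exact_mod_cast hp) (by omega)
        rw [hρ', h7]
        nlinarith
      · push Not at h4
        have : 0 ≤ (p : ℝ) ^ (i + 1) * v (coeff (p ^ (t - i) • γ) Λ) := by positivity
        linarith
    rw [mul_comm (algebraMap k Ω (κ i))]
    have h3 := Gt.mul_ge h2 (hk.ge (κ i))
    rwa [add_zero] at h3
  have hFγ : Gt v ρ (coeff (p ^ (t + 1) • γ) F) :=
    Gt.of_ge (hF _) (by rw [hρ']; linarith)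
  have hEγ : Gt v ρ (coeff (p ^ (t + 1) • γ) Err) := by
    refine Gt.of_ge (hErr' _) (lt_min (by linarith) ?_)
    have : max c ome < (p : ℝ) ^ (t + 1) * c := max_lt hcQ (by linarith)
    rw [hρ']
    linarith
  have htot : Gt v ρ (coeff (p ^ (t + 1) • γ) (PP p κ t Λ + F + Err)) :=
    Gt.of_ge (hE1 _) (by linarith)
  rw [coeff_add, coeff_add, coeff_PPΩ, Finset.sum_range_succ] at htot
  have htop : Gt v ρ (algebraMap k Ω (κ t) *
      coeff (p ^ (t + 1) • γ) (Λ ^ p ^ (t + 1))) := by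
    have h1 := ((htot.sub hEγ).sub hFγ).sub hlow
    have h2 : ∀ A B D E : Ω, A + B + D + E - E - D - A = B := fun A B D E => by ring
    rwa [h2] at h1
  rw [coeff_pow_smul] at htop
  have hκ' : algebraMap k Ω (κ t) ≠ 0 := by simpa using hκ
  have h1 := htop (mul_ne_zero hκ' (pow_ne_zero _ hγ1))
  rw [v.map_mul hκ' (pow_ne_zero _ hγ1), hk.triv _ hκ, zero_add, v.map_pow hγ1] at h1
  push_cast at h1
  exact lt_irrefl _ h1

omit [Fact p.Prime] [CharP k p] in
/-- Passing to the top form, below the top. -/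
theorem gt_topL (hk : Ctx0 k v) (hS : Siz v w y Φ)
    {d : ℝ} {G : MvPolynomial (Fin 2) k} (hG : ∀ m ∈ G.support, wt w m ≤ d) {β : Ex}
    (h : Gt v (wt w β - d) (coeff β (LL k y Φ G))) :
    Gt v (wt w β - d) (coeff β (LL k y Φ (tpp w d G))) := by
  classical
  set G' := G - tpp w d G with hG'
  have hG's : ∀ m ∈ G'.support, wt w m < d := by
    intro m hm
    rw [mem_support_iff, hG', coeff_sub, coeff_tpp] at hm
    split_ifs at hm with h1
    · exact absurd (sub_self _) hm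
    · rw [sub_zero] at hm
      exact lt_of_le_of_ne (hG m (mem_support_iff.mpr hm)) h1
  have h4 : LL k y Φ (tpp w d G) = LL k y Φ G - LL k y Φ G' := by
    rw [hG', map_sub]
    ring
  rw [h4, coeff_sub]
  exact h.sub (hS.gt hk hG's β)

/-- The top form of `G` from the key relation. -/
theorem key_of_krO (hk : Ctx0 k v) (hS : Siz v w y Φ)
    {d ome : ℝ} (hd : 0 < d) (hod : ome < d) {G : MvPolynomial (Fin 2) k}
    (hG : ∀ m ∈ G.support, wt w m ≤ d) {Λ : MvPolynomial (Fin 2) Ω}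
    (hKR : ∀ ε : ℝ, 0 < ε → ∃ Err : MvPolynomial (Fin 2) Ω,
      (∀ β : Ex, v.Ge (-ε) (coeff β (PP p κ t Λ + LL k y Φ G + Err))) ∧
      ∀ e, ome ≤ e → FilO v w 0 e Λ → FilO v w ε e Err)
    (hΛ : FilO v w 0 (d / (p : ℝ) ^ (t + 1)) Λ) (β : Ex) (hβ : ∀ α, β ≠ p ^ (t + 1) • α)
    (hβd : wt w β < d) :
    Gt v (wt w β - d) (coeff β (LL k y Φ (tpp w d G))) := by
  classical
  have : CharP Ω p := charP_of_injective_algebraMap (algebraMap k Ω).injective p
  have hp : 1 < p := Nat.Prime.one_lt Fact.out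
  have hQ : (0 : ℝ) < (p : ℝ) ^ (t + 1) := by positivity
  have hQ1 : (1 : ℝ) < (p : ℝ) ^ (t + 1) := one_lt_pow₀ (by exact_mod_cast hp) (by omega)
  have hdQ : d / (p : ℝ) ^ (t + 1) < d := div_lt_self hd hQ1
  refine gt_topL hk hS hG ?_
  set e' := max (d / (p : ℝ) ^ (t + 1)) ome with he'
  have he'd : e' < d := max_lt hdQ hod
  obtain ⟨Err, hE1, hE2⟩ := hKR ((d - wt w β) / 2) (by linarith)
  have hE := hE2 e' (le_max_right _ _) (hΛ.mono le_rfl (le_max_left _ _))
  have hEβ : Gt v (wt w β - d) (coeff β Err) :=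
    Gt.of_ge (hE β) (lt_min (by linarith) (by linarith))
  have hPβ : Gt v (wt w β - d) (coeff β (PP p κ t Λ)) := by
    rw [coeff_PPΩ]
    refine Gt.sum _ _ fun i hi => ?_
    rw [Finset.mem_range] at hi
    have h2 : Gt v (wt w β - d) (coeff β (Λ ^ p ^ (i + 1))) := by
      intro h3
      obtain ⟨γ, hγ, hγ1⟩ := exists_of_coeff_pow p Λ (i + 1) h3
      have hit : i < t := by
        by_contra h4
        have : i = t := by omega
        rw [this] at hγ
        exact hβ γ hγ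
      have h6 : (0 : ℝ) < (p : ℝ) ^ (i + 1) := by positivity
      have h7 : wt w β = (p : ℝ) ^ (i + 1) * wt w γ := by
        rw [hγ, wt_smul]
        push_cast
        ring
      have h8 : (p : ℝ) ^ (i + 1) < (p : ℝ) ^ (t + 1) :=
        pow_lt_pow_right₀ (by exact_mod_cast hp) (by omega)
      rw [hγ, coeff_pow_smul, v.map_pow hγ1, ← hγ]
      push_cast
      have h5 := hΛ γ hγ1
      rw [neg_zero, min_le_iff] at h5
      rcases h5 with h5 | h5
      · have : 0 ≤ (p : ℝ) ^ (i + 1) * v (coeff γ Λ) := by positivity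
        linarith
      · have h9 : (p : ℝ) ^ (i + 1) * (d / (p : ℝ) ^ (t + 1)) < d := by
          rw [← mul_div_assoc, div_lt_iff₀ hQ]
          nlinarith
        rw [h7]
        nlinarith
    rw [mul_comm (algebraMap k Ω (κ i))]
    have h3 := Gt.mul_ge h2 (hk.ge (κ i))
    rwa [add_zero] at h3
  have htot : Gt v (wt w β - d)
      (coeff β (PP p κ t Λ + LL k y Φ G + Err)) := Gt.of_ge (hE1 β) (by linarith)
  rw [coeff_add, coeff_add] at htot
  have h1 := (htot.sub hEβ).sub hPβ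
  have h2 : ∀ A B D : Ω, A + B + D - D - A = B := fun A B D => by ring
  rwa [h2] at h1

/-- The noise relation modulo the valuation ring. -/
def NRelO (v : RVal Ω) (w : Fin 2 → ℝ) (y : Fin 2 → Ω) (Φ : Polynomial Ω)
    (Λ : MvPolynomial (Fin 2) Ω) (N : MvPolynomial (Fin 2) k) : Prop :=
  ∀ e, FilO v w 0 e Λ → ∀ ε : ℝ, 0 < ε → FilO v w ε e (LL k y Φ N)

omit [Fact p.Prime] [CharP k p] in
/-- Noise polynomials have small weight. -/
theorem noise_le (hk : Ctx0 k v) (hS : Siz v w y Φ)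
    (hD : DnsL k v w y Φ) {e₀ : ℝ} (he0 : 0 ≤ e₀) {Λ : MvPolynomial (Fin 2) Ω}
    (hΛ : FilO v w 0 e₀ Λ) {N : MvPolynomial (Fin 2) k} (hN : NRelO v w y Φ Λ N) :
    ∀ m ∈ N.support, wt w m ≤ e₀ := by
  classical
  intro m hm
  by_contra hcon
  push Not at hcon
  obtain ⟨m₀, hm₀, hmax⟩ := N.support.exists_max_image (wt w) ⟨m, hm⟩
  set e := wt w m₀ with he
  have he₀ : e₀ < e := lt_of_lt_of_le hcon (hmax m hm)
  have h2 : tpp w e N = 0 := by
    refine hD e (lt_of_le_of_lt he0 he₀) _ ?_ fun β hβ => gt_topL hk hS hmax ?_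
    · intro m' hm'
      rw [mem_support_iff, coeff_tpp] at hm'
      by_contra h3
      exact hm' (if_neg h3)
    · exact Gt.of_ge (hN e₀ hΛ ((e - wt w β) / 2) (by linarith) β)
        (lt_min (by linarith) (by linarith))
  have h3 : coeff m₀ (tpp w e N) = coeff m₀ N := by
    rw [coeff_tpp, if_pos rfl]
  rw [h2, coeff_zero] at h3
  exact (mem_support_iff.mp hm₀) h3.symm

/-- **The plane lemma, integral form**, for one reduced polynomial `G`. -/
theorem plane_one (hk : Ctx0 k v) (hκ : κ t ≠ 0) (hw0 : 0 ≤ w 0)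
    (hw01 : w 0 ≤ w 1) (hw1 : 0 < w 1) (hS : Siz v w y Φ)
    (hy : 0 < w 0 → y 0 ≠ 0 ∧ v (y 0) = -(w 0)) (hD : DnsL k v w y Φ)
    {G : MvPolynomial (Fin 2) k} (hred : ∀ α : Ex, α ≠ 0 → coeff (p ^ (t + 1) • α) G = 0)
    {Λ : MvPolynomial (Fin 2) Ω} {ome : ℝ} (ho0 : 0 ≤ ome) (ho1 : ome ≤ w 1)
    (hKR : ∀ ε : ℝ, 0 < ε → ∃ Err : MvPolynomial (Fin 2) Ω,
        (∀ β : Ex, v.Ge (-ε) (coeff β (PP p κ t Λ + LL k y Φ G + Err))) ∧
        ∀ e, ome ≤ e → FilO v w 0 e Λ → FilO v w ε e Err) :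
    FilO v w 0 (w 1 / p) Λ ∧ ∀ N : MvPolynomial (Fin 2) k, NRelO v w y Φ Λ N →
      (∀ m ∈ N.support, wt w m ≤ w 1 / p) ∧ ∀ m ∈ N.support, m 1 = 0 := by
  classical
  have hp : 1 < p := Nat.Prime.one_lt Fact.out
  have hQ : (0 : ℝ) < (p : ℝ) ^ (t + 1) := by positivity
  have hpR : (0 : ℝ) < (p : ℝ) := by positivity
  have hFil : FilO v w 0 (w 1 / p) Λ := by
    have hle : ∀ x : ℝ, x ≤ (p : ℝ) ^ t * w 1 → x / (p : ℝ) ^ (t + 1) ≤ w 1 / p := by
      intro x hx
      rw [div_le_div_iff₀ hQ hpR, pow_succ]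
      nlinarith
    have hone : (1 : ℝ) ≤ (p : ℝ) ^ t := one_le_pow₀ (by exact_mod_cast hp.le)
    by_cases hbig : ∃ m ∈ G.support, ome < wt w m
    · obtain ⟨m, hm, hmo⟩ := hbig
      obtain ⟨m₀, hm₀, hmax⟩ := G.support.exists_max_image (wt w) ⟨m, hm⟩
      set d := wt w m₀ with hd
      have hod : ome < d := hmo.trans_le (hmax m hm)
      have hd0 : 0 < d := lt_of_le_of_lt ho0 hod
      have h1 := filO_of_kr hk hκ hd0.le hod.le (hS.fil hk hmax) hKR
      refine h1.mono le_rfl (hle _ ?_)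
      refine top_boundL (p := p) (t := t) hk hw0 hw01 hy hD hd0 (G := G) ⟨m₀, hm₀, rfl⟩ ?_
        (key_of_krO hk hS hd0 hod hmax hKR h1)
      intro m' hm' hmd α hα
      have hα0 : α ≠ 0 := by
        rintro rfl
        rw [hα, smul_zero, wt_zero] at hmd
        linarith
      rw [hα] at hm'
      exact (mem_support_iff.mp hm') (hred α hα0)
    · push Not at hbig
      have h1 := filO_of_kr hk hκ ho0 le_rfl (hS.fil hk hbig) hKR
      refine h1.mono le_rfl (hle _ ?_)
      nlinarith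
  refine ⟨hFil, fun N hN => ?_⟩
  have hN' := noise_le hk hS hD (by positivity) hFil hN
  refine ⟨hN', fun m hm => ?_⟩
  by_contra hne
  have h1 : (1 : ℝ) ≤ m 1 := by exact_mod_cast Nat.one_le_iff_ne_zero.mpr hne
  have h2 : w 1 ≤ wt w m := by
    unfold wt
    have : 0 ≤ (m 0 : ℝ) * w 0 := by positivity
    nlinarith
  have h3 := hN' m hm
  have h4 : w 1 / p < w 1 := div_lt_self hw1 (by exact_mod_cast hp)
  linarith

/-- **The plane lemma, integral form**, for any family `Gf` of gauges. -/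
theorem planeGf (hk : Ctx0 k v) (hκ : κ t ≠ 0) (hw0 : 0 ≤ w 0)
    (hw01 : w 0 ≤ w 1) (hw1 : 0 < w 1) (hS : Siz v w y Φ)
    (hy : 0 < w 0 → y 0 ≠ 0 ∧ v (y 0) = -(w 0)) (hD : DnsL k v w y Φ)
    (Gf : MvPolynomial (Fin 2) k → MvPolynomial (Fin 2) k)
    (hred : ∃ f : MvPolynomial (Fin 2) k, constantCoeff f = 0 ∧
      ∀ α : Ex, α ≠ 0 → coeff (p ^ (t + 1) • α) (Gf f) = 0)
    (Λ : MvPolynomial (Fin 2) k → MvPolynomial (Fin 2) Ω)
    {ome : ℝ} (ho0 : 0 ≤ ome) (ho1 : ome ≤ w 1)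
    (hKR : ∀ f : MvPolynomial (Fin 2) k, constantCoeff f = 0 → ∀ ε : ℝ, 0 < ε →
      ∃ Err : MvPolynomial (Fin 2) Ω,
        (∀ β : Ex, v.Ge (-ε) (coeff β (PP p κ t (Λ f) + LL k y Φ (Gf f) + Err))) ∧
        ∀ e, ome ≤ e → FilO v w 0 e (Λ f) → FilO v w ε e Err) :
    ∃ f : MvPolynomial (Fin 2) k, constantCoeff f = 0 ∧ FilO v w 0 (w 1 / p) (Λ f) ∧
      ∀ N : MvPolynomial (Fin 2) k, NRelO v w y Φ (Λ f) N →
        (∀ m ∈ N.support, wt w m ≤ w 1 / p) ∧ ∀ m ∈ N.support, m 1 = 0 := by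
  obtain ⟨f, hf0, hfred⟩ := hred
  exact ⟨f, hf0, plane_one hk hκ hw0 hw01 hw1 hS hy hD hfred ho0 ho1 (hKR f hf0)⟩

/-- **The plane lemma, integral form.** -/
theorem planeO [IsAlgClosed k] (hk : Ctx0 k v) (hκ : κ t ≠ 0) (hw0 : 0 ≤ w 0)
    (hw01 : w 0 ≤ w 1) (hw1 : 0 < w 1) (hS : Siz v w y Φ)
    (hy : 0 < w 0 → y 0 ≠ 0 ∧ v (y 0) = -(w 0)) (hD : DnsL k v w y Φ)
    {G : MvPolynomial (Fin 2) k} (Λ : MvPolynomial (Fin 2) k → MvPolynomial (Fin 2) Ω)
    {ome : ℝ} (ho0 : 0 ≤ ome) (ho1 : ome ≤ w 1)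
    (hKR : ∀ f : MvPolynomial (Fin 2) k, constantCoeff f = 0 → ∀ ε : ℝ, 0 < ε →
      ∃ Err : MvPolynomial (Fin 2) Ω,
        (∀ β : Ex, v.Ge (-ε) (coeff β (PP p κ t (Λ f) + LL k y Φ (G + PP p κ t f) + Err))) ∧
        ∀ e, ome ≤ e → FilO v w 0 e (Λ f) → FilO v w ε e Err) :
    ∃ f : MvPolynomial (Fin 2) k, constantCoeff f = 0 ∧ FilO v w 0 (w 1 / p) (Λ f) ∧
      ∀ N : MvPolynomial (Fin 2) k, NRelO v w y Φ (Λ f) N →
        (∀ m ∈ N.support, wt w m ≤ w 1 / p) ∧ ∀ m ∈ N.support, m 1 = 0 :=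
  planeGf hk hκ hw0 hw01 hw1 hS hy hD (fun f => G + PP p κ t f)
    (exists_red (κ := κ) (t := t) (p := p) hκ G) Λ ho0 ho1 hKR

end main

/-! ## density from the weights below the top -/

section dns

variable {k Ω : Type u} [Field k] [Field Ω] [Algebra k Ω] {v : RVal Ω} {w : Fin 2 → ℝ}

theorem LL_eq (y : Fin 2 → Ω) (Φ : Polynomial Ω) :
    LL k y Φ = TWLG76.LL (k := k) (y 0) (Polynomial.C (y 1) + Φ) := TWLG76.LL_eq y Φ

/-- filtered, with the leading form `F₀` -/
structure FilT (v : RVal Ω) (w : Fin 2 → ℝ) (d : ℝ) (F F₀ : MvPolynomial (Fin 2) Ω) : Prop where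
  fil : Fil v w d F
  iso : ∀ β, coeff β F₀ ≠ 0 → wt w β = d
  ge : ∀ β, v.Ge 0 (coeff β F₀)
  top : ∀ β, d ≤ wt w β → Gt v (wt w β - d) (coeff β (F - F₀))

theorem FilT.mul {d d' : ℝ} {F F₀ F' F₀' : MvPolynomial (Fin 2) Ω} (h : FilT v w d F F₀)
    (h' : FilT v w d' F' F₀') : FilT v w (d + d') (F * F') (F₀ * F₀') := by
  classical
  have hfil' : Fil v w d' (F' - F₀') := by
    refine h'.fil.sub fun β => ?_
    intro h0
    have h1 := h'.iso β h0
    have h2 := h'.ge β h0
    linarith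
  refine ⟨h.fil.mul h'.fil, fun β hβ => ?_, fun β => ?_, fun β hβ => ?_⟩
  · rw [coeff_mul] at hβ
    obtain ⟨x, hx, h1⟩ := Finset.exists_ne_zero_of_sum_ne_zero hβ
    rw [Finset.HasAntidiagonal.mem_antidiagonal] at hx
    rw [← hx, wt_add, h.iso _ (left_ne_zero_of_mul h1), h'.iso _ (right_ne_zero_of_mul h1)]
  · rw [coeff_mul]
    refine RVal.Ge.sum _ _ fun x _ => ?_
    have h1 := (h.ge x.1).mul (h'.ge x.2)
    rwa [add_zero] at h1
  · have e1 : F * F' - F₀ * F₀' = F * (F' - F₀') + (F - F₀) * F₀' := by ring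
    rw [e1, coeff_add, coeff_mul, coeff_mul]
    refine Gt.add (Gt.sum _ _ fun q hq => ?_) (Gt.sum _ _ fun q hq => ?_)
    · rw [Finset.HasAntidiagonal.mem_antidiagonal] at hq
      rw [← hq, wt_add] at hβ
      by_cases h1 : d' ≤ wt w q.2
      · rw [mul_comm (coeff q.1 F)]
        refine ((h'.top q.2 h1).mul_ge (h.fil q.1)).mono ?_
        rw [← hq, wt_add]
        linarith
      · push Not at h1
        have h2 : d < wt w q.1 := by linarith
        have h3 : coeff q.1 F₀ = 0 := by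
          by_contra h4
          have := h.iso q.1 h4
          linarith
        have h4 := h.top q.1 h2.le
        rw [coeff_sub, h3, sub_zero] at h4
        refine (h4.mul_ge (hfil' q.2)).mono ?_
        rw [← hq, wt_add]
        linarith
    · rw [Finset.HasAntidiagonal.mem_antidiagonal] at hq
      rw [← hq, wt_add] at hβ
      by_cases h1 : coeff q.2 F₀' = 0
      · rw [h1, mul_zero]
        exact Gt.zero
      · have h2 := h'.iso q.2 h1
        refine ((h.top q.1 (by linarith)).mul_ge (h'.ge q.2)).mono ?_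
        rw [← hq, wt_add]
        linarith

theorem FilT.const (hk : Ctx0 k v) (a : k) :
    FilT v w 0 (C (algebraMap k Ω a)) (C (algebraMap k Ω a)) := by
  classical
  refine ⟨Fil.C (by rw [neg_zero]; exact hk.ge _), fun β hβ => ?_, fun β => ?_, fun β _ => ?_⟩
  · rw [coeff_C] at hβ
    split_ifs at hβ with h
    · rw [← h, wt_zero]
    · exact absurd rfl hβ
  · rw [coeff_C]
    split_ifs
    · exact hk.ge _
    · exact RVal.Ge.zero
  · rw [sub_self, coeff_zero]
    exact Gt.zero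

theorem FilT.pow (hk : Ctx0 k v) {d : ℝ} {F F₀ : MvPolynomial (Fin 2) Ω}
    (h : FilT v w d F F₀) (n : ℕ) : FilT v w (n * d) (F ^ n) (F₀ ^ n) := by
  induction n with
  | zero =>
    rw [pow_zero, pow_zero, Nat.cast_zero, zero_mul, ← C_1, ← map_one (algebraMap k Ω)]
    exact FilT.const hk 1
  | succ n ih =>
    rw [pow_succ, pow_succ]
    have := ih.mul h
    push_cast
    rwa [add_mul, one_mul]

theorem filT_X (hk : Ctx0 k v) (i : Fin 2) {F : MvPolynomial (Fin 2) Ω}
    (hF : Fil v w (w i) F) (h : ∀ β, w i ≤ wt w β → Gt v (wt w β - w i) (coeff β F)) :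
    FilT v w (w i) (X i + F) (X i) := by
  classical
  refine ⟨(Fil.X hk i).add hF, fun β hβ => ?_, fun β => ?_, fun β hβ => ?_⟩
  · rw [coeff_X] at hβ
    split_ifs at hβ with h1
    · rw [← h1, wt_single, Nat.cast_one, one_mul]
    · exact absurd rfl hβ
  · rw [coeff_X]
    split_ifs
    · have := hk.ge 1
      rwa [map_one] at this
    · exact RVal.Ge.zero
  · rw [add_sub_cancel_left]
    exact h β hβ

/-- **Density from the weights below the top**, in strictly good coordinates. -/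
theorem dnsL_of_dns (hk : Ctx0 k v) (hw0 : 0 < w 0) (hw1 : 0 < w 1) {y : Fin 2 → Ω}
    {Φ : Polynomial Ω} (hS : Siz v w y Φ)
    (hpos : ∀ j : ℕ, w 1 ≤ j * w 0 → Gt v (j * w 0 - w 1) (Φ.coeff j))
    (hD : Dns k v w y Φ) : DnsL k v w y Φ := by
  classical
  intro d hd H hH hinv
  refine hD d hd H hH fun β => ?_
  by_cases hβ : wt w β < d
  · rw [coeff_sub]
    refine (hinv β hβ).sub ?_
    rw [coeff_mp]
    exact Gt.of_ge (hk.ge _) (by linarith)
  push Not at hβ
  have hC : ∀ (i : Fin 2), 0 < w i → ∀ a : Ω, ∀ β : Ex, w i ≤ wt w β →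
      coeff β (C a : MvPolynomial (Fin 2) Ω) = 0 := by
    intro i hi a β h1
    rw [coeff_C, if_neg]
    rintro rfl
    rw [wt_zero] at h1
    linarith
  have h0 : FilT v w (w 0) (X 0 + C (y 0)) (X 0) :=
    filT_X hk 0 (Fil.C (hS.y 0)) fun β h1 => by
      rw [hC 0 hw0 _ β h1]
      exact Gt.zero
  have h1 : FilT v w (w 1) (X 1 + (C (y 1) + Polynomial.aeval (X 0) Φ)) (X 1) := by
    refine filT_X hk 1 ((Fil.C (hS.y 1)).add (hS.fil_phi hk)) fun β h1 => ?_
    rw [coeff_add, hC 1 hw1 _ β h1, zero_add, Polynomial.aeval_eq_sum_range, coeff_sum]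
    refine Gt.sum _ _ fun j _ => ?_
    rw [smul_eq_C_mul, X_pow_eq_monomial, C_mul_monomial, mul_one, coeff_monomial]
    split_ifs with h2
    · rw [← h2, wt_single] at h1 ⊢
      exact hpos j h1
    · exact Gt.zero
  have key : ∀ m ∈ H.support, Gt v (wt w β - d)
      (coeff β (LL k y Φ (monomial m (coeff m H)) - mp Ω (monomial m (coeff m H)))) := by
    intro m hm
    have h2 := (FilT.const (w := w) hk (coeff m H)).mul ((h0.pow hk (m 0)).mul (h1.pow hk (m 1)))
    have h3 : 0 + ((m 0 : ℝ) * w 0 + (m 1 : ℝ) * w 1) = d := by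
      rw [zero_add]
      exact hH m hm
    rw [h3] at h2
    have h4 := h2.top β hβ
    have e1 : LL k y Φ (monomial m (coeff m H)) = C (algebraMap k Ω (coeff m H)) *
        ((X 0 + C (y 0)) ^ m 0 * (X 1 + (C (y 1) + Polynomial.aeval (X 0) Φ)) ^ m 1) := by
      rw [LL, aeval_monomial, Finsupp.prod_fintype _ _ (by simp), Fin.prod_univ_two,
        IsScalarTower.algebraMap_apply k Ω (MvPolynomial (Fin 2) Ω), algebraMap_eq,
        ← add_assoc (X 1 : MvPolynomial (Fin 2) Ω)]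
      rfl
    have e2 : mp Ω (monomial m (coeff m H)) = C (algebraMap k Ω (coeff m H)) *
        (X 0 ^ m 0 * X 1 ^ m 1) := by
      rw [mp, map_monomial, X_pow_eq_monomial, X_pow_eq_monomial, monomial_mul, C_mul_monomial,
        mul_one, mul_one]
      have e3 : (Finsupp.single 0 (m 0) + Finsupp.single 1 (m 1) : Ex) = m := by
        refine ex_ext ?_ ?_
        · simp
        · simp
      rw [e3]
    rw [e1, e2]
    exact h4
  have e3 : LL k y Φ H - mp Ω H = ∑ m ∈ H.support,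
      (LL k y Φ (monomial m (coeff m H)) - mp Ω (monomial m (coeff m H))) := by
    rw [Finset.sum_sub_distrib, ← map_sum, ← map_sum, ← H.as_sum]
  rw [e3, coeff_sum]
  exact Gt.sum _ _ key

/-- The case `w 0 = 0`. -/
theorem dnsL_zero (p : ℕ) [hp : Fact p.Prime] [CharP k p] (hk : Ctx0 k v) {w : Fin 2 → ℝ}
    (hw0 : w 0 = 0) (hw1 : 0 < w 1) {y : Fin 2 → Ω} {Φ : Polynomial Ω} (hS : Siz v w y Φ)
    {j₀ : ℕ} (hj0 : (Polynomial.C (y 1) + Φ).coeff j₀ ≠ 0)
    (hjv : v ((Polynomial.C (y 1) + Φ).coeff j₀) = -(w 1)) : DnsL k v w y Φ := by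
  classical
  have : CharP Ω p := charP_of_injective_algebraMap (algebraMap k Ω).injective p
  intro d' hd H hiso hinv
  rw [LL_eq] at hinv
  set y₀ := y 0 with hy₀
  set Ψ := Polynomial.C (y 1) + Φ with hΨdef
  set w₁ := w 1 with hw₁
  have hy : v.Ge 0 y₀ := by
    have h := hS.y 0
    rwa [hw0, neg_zero] at h
  have hΨ : ∀ j : ℕ, v.Ge (-w₁) (Ψ.coeff j) := by
    intro j
    rw [hΨdef, Polynomial.coeff_add]
    have h2 := hS.phi j
    rw [hw0, mul_zero, zero_sub] at h2
    refine RVal.Ge.add ?_ h2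
    rw [Polynomial.coeff_C]
    split_ifs
    · exact hS.y 1
    · exact RVal.Ge.zero
  by_contra hH
  have hp0 : 0 < p := hp.out.pos
  have halg : ∀ {c : k}, c ≠ 0 → algebraMap k Ω c ≠ 0 := fun hc => by
    rw [Ne, map_eq_zero]
    exact hc
  have hwt : ∀ m : Ex, wt w m = m 1 * w₁ := fun m => by
    simp [wt, hw0, hw₁]
  obtain ⟨M, hM, hMmax⟩ := Finset.exists_max_image H.support (fun m => m 0)
    (support_nonempty.2 hH)
  have hMc : coeff M H ≠ 0 := mem_support_iff.1 hM
  have hMd : (M 1 : ℝ) * w₁ = d' := by rw [← hwt, hiso M hM]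
  have hm1 : ∀ m ∈ H.support, m 1 = M 1 := by
    intro m hm
    have h1 := hiso m hm
    rw [hwt, ← hMd] at h1
    exact_mod_cast mul_right_cancel₀ hw1.ne' h1
  have hl0 : M 1 ≠ 0 := by
    intro h
    rw [h, Nat.cast_zero, zero_mul] at hMd
    exact hd.ne hMd
  obtain ⟨e, n, hn, hln⟩ := Nat.exists_eq_pow_mul_and_not_dvd hl0 p hp.out.ne_one
  have hnk : (n : k) ≠ 0 := by
    rw [Ne, CharP.cast_eq_zero_iff k p]
    exact hn
  have hpe : 0 < p ^ e := pow_pos hp0 e
  have hn0 : 0 < n := Nat.pos_of_ne_zero fun h => hn (by rw [h]; exact dvd_zero p)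
  have hpel : p ^ e ≤ M 1 := by
    rw [hln]
    exact Nat.le_mul_of_pos_right _ hn0
  set l := M 1 - p ^ e with hl
  have hlp : l + p ^ e = M 1 := by omega
  have hnΩ : (n : Ω) ≠ 0 := by
    rw [← map_natCast (algebraMap k Ω)]
    exact halg hnk
  have hvn : v (n : Ω) = 0 := by
    rw [← map_natCast (algebraMap k Ω)]
    exact hk.triv _ hnk
  set A : Polynomial Ω := ∑ m ∈ H.support, Polynomial.C (algebraMap k Ω (coeff m H)) *
    (Polynomial.X + Polynomial.C y₀) ^ m 0 with hA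
  have hcoef : ∀ j, coeff (mk j l) (TWLG76.LL y₀ Ψ H) =
      n * (A * Ψ ^ p ^ e).coeff j := by
    intro j
    rw [TWLG76.coeff_LL, hA, Finset.sum_mul, Polynomial.finsetSum_coeff, Finset.mul_sum]
    refine Finset.sum_congr rfl fun m hm => ?_
    have e1 : m 1 - l = p ^ e := by rw [hm1 m hm]; omega
    have e2 : (((m 1).choose l : ℕ) : Ω) = n := by
      rw [hm1 m hm, hl, Nat.choose_symm hpel, hln]
      exact TWLG76.choose_cast_one (R := Ω) (p := p) e n
    rw [e1, e2, mul_assoc, Polynomial.coeff_C_mul]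
    ring
  have hAc : ∀ a, A.coeff a = ∑ m ∈ H.support, algebraMap k Ω (coeff m H) *
      (y₀ ^ (m 0 - a) * ((m 0).choose a : Ω)) := by
    intro a
    rw [hA, Polynomial.finsetSum_coeff]
    refine Finset.sum_congr rfl fun m _ => ?_
    rw [Polynomial.coeff_C_mul, Polynomial.coeff_X_add_C_pow]
  have hAge : ∀ a, v.Ge 0 (A.coeff a) := by
    intro a
    rw [hAc]
    refine RVal.Ge.sum _ _ fun m _ => ?_
    have h1 := TWM.ge_pow hy (m 0 - a)
    have h2 := (hk.ge (coeff m H)).mul (h1.mul (hk.ge (((m 0).choose a : ℕ) : k)))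
    rw [map_natCast] at h2
    refine h2.mono ?_
    simp
  have hAtop : A.coeff (M 0) = algebraMap k Ω (coeff M H) := by
    rw [hAc, Finset.sum_eq_single_of_mem M hM]
    · rw [Nat.sub_self, pow_zero, Nat.choose_self, Nat.cast_one, mul_one, mul_one]
    · intro m hm hmM
      have h1 : m 0 < M 0 := lt_of_le_of_ne (hMmax m hm) fun h => hmM (ex_ext h (hm1 m hm))
      rw [Nat.choose_eq_zero_of_lt h1, Nat.cast_zero, mul_zero, mul_zero]
  have hAhi : ∀ a, M 0 < a → A.coeff a = 0 := by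
    intro a ha
    rw [hAc]
    refine Finset.sum_eq_zero fun m hm => ?_
    have h1 : m 0 < a := lt_of_le_of_lt (hMmax m hm) ha
    rw [Nat.choose_eq_zero_of_lt h1, Nat.cast_zero, mul_zero, mul_zero]
  -- the last coefficient of maximal size
  obtain ⟨j₁, hj₁, hj₁max⟩ := Finset.exists_max_image
    (Ψ.support.filter fun j => v (Ψ.coeff j) = -w₁) (fun j => j)
    ⟨j₀, Finset.mem_filter.2 ⟨Polynomial.mem_support_iff.2 hj0, hjv⟩⟩
  obtain ⟨hj₁s, hj₁v⟩ := Finset.mem_filter.1 hj₁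
  have hj₁0 : Ψ.coeff j₁ ≠ 0 := Polynomial.mem_support_iff.1 hj₁s
  have hlate : ∀ j, j₁ < j → Gt v (-w₁) (Ψ.coeff j) := by
    intro j hj h0
    refine lt_of_le_of_ne (hΨ j h0) fun h => ?_
    have h1 := hj₁max j (Finset.mem_filter.2 ⟨Polynomial.mem_support_iff.2 h0, h.symm⟩)
    exact absurd h1 (not_le.2 hj)
  have hpow : ∀ {x : Ω}, Gt v (-w₁) x → Gt v (-((p : ℝ) ^ e * w₁)) (x ^ p ^ e) := by
    intro x hx h0
    have hx0 : x ≠ 0 := fun h => h0 (by rw [h, zero_pow hpe.ne'])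
    rw [v.map_pow hx0]
    have h1 := hx hx0
    have h2 : (0 : ℝ) < (p : ℝ) ^ e := by
      have : (0 : ℝ) < p := by exact_mod_cast hp0
      positivity
    push_cast
    have h3 := mul_lt_mul_of_pos_left h1 h2
    linarith
  have hmain := hinv (mk (M 0 + p ^ e * j₁) l) (by
    rw [hwt, mk_one', ← hMd]
    have : (l : ℝ) < M 1 := by exact_mod_cast (by omega : l < M 1)
    nlinarith)
  have hthr : wt w (mk (M 0 + p ^ e * j₁) l) - d' = -((p : ℝ) ^ e * w₁) := by
    rw [hwt, mk_one', ← hMd, ← hlp]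
    push_cast
    ring
  rw [hcoef, hthr] at hmain
  -- the coefficient
  have hsplit : Gt v (-((p : ℝ) ^ e * w₁)) ((A * Ψ ^ p ^ e).coeff (M 0 + p ^ e * j₁) -
      algebraMap k Ω (coeff M H) * Ψ.coeff j₁ ^ p ^ e) := by
    have hmem : (M 0, p ^ e * j₁) ∈ Finset.HasAntidiagonal.antidiagonal (M 0 + p ^ e * j₁) :=
      Finset.HasAntidiagonal.mem_antidiagonal.2 rfl
    rw [Polynomial.coeff_mul, ← Finset.add_sum_erase _ _ hmem]
    simp only
    rw [hAtop, TWLG76.coeff_pow_char_mul (p := p), add_sub_cancel_left]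
    refine Gt.sum _ _ fun x hx => ?_
    obtain ⟨hx1, hx2⟩ := Finset.mem_erase.1 hx
    rw [Finset.HasAntidiagonal.mem_antidiagonal] at hx2
    rcases lt_trichotomy x.1 (M 0) with h | h | h
    · have h1 := hAge x.1
      have h2 : Gt v (-((p : ℝ) ^ e * w₁)) ((Ψ ^ p ^ e).coeff x.2) := by
        rw [TWLG76.coeff_pow_char]
        split_ifs with h3
        · obtain ⟨j, hj⟩ := h3
          rw [hj, Nat.mul_div_cancel_left _ hpe]
          refine hpow (hlate j ?_)
          have h4 : p ^ e * j₁ < p ^ e * j := by omega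
          exact lt_of_mul_lt_mul_left h4 hpe.le
        · exact Gt.zero
      have h3 := h2.mul_ge h1
      rw [add_zero] at h3
      rw [mul_comm (A.coeff x.1)]
      exact h3
    · exfalso
      apply hx1
      refine Prod.ext h ?_
      simp only
      omega
    · rw [hAhi _ h, zero_mul]
      exact Gt.zero
  have h1 : Gt v (-((p : ℝ) ^ e * w₁)) ((A * Ψ ^ p ^ e).coeff (M 0 + p ^ e * j₁)) := by
    intro h0
    have h2 := hmain (mul_ne_zero hnΩ h0)
    rwa [v.map_mul hnΩ h0, hvn, zero_add] at h2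
  have h2 := h1.sub hsplit
  rw [sub_sub_cancel] at h2
  refine TWLG76.not_gt (mul_ne_zero (halg hMc) (pow_ne_zero _ hj₁0)) ?_ h2
  rw [v.map_mul (halg hMc) (pow_ne_zero _ hj₁0), hk.triv _ hMc, v.map_pow hj₁0, hj₁v]
  push_cast
  ring

/-- **`DnsL` for the letters `s ^ p`, `c ^ p`.** -/
theorem dnsL_twist (p : ℕ) [hp : Fact p.Prime] [CharP k p] [IsAlgClosed k]
    [CharP Ω p] {w : Fin 2 → ℝ} {y : Fin 2 → Ω} {Φ : Polynomial Ω} (h : DnsL k v w y Φ) :
    DnsL k v (fun i => p * w i) (fun i => y i ^ p) (Φ.map (frobenius Ω p)) := by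
  intro d' hd H hiso hinv
  rw [LL_eq] at hinv
  have hp0 : (0 : ℝ) < p := by exact_mod_cast hp.out.pos
  have hroot : ∀ a : k, ∃ b : k, b ^ p = a ∧ (a = 0 → b = 0) := by
    intro a
    obtain ⟨b, hb⟩ := IsAlgClosed.exists_pow_nat_eq a hp.out.pos
    refine ⟨b, hb, fun h0 => ?_⟩
    rw [h0] at hb
    exact eq_zero_of_pow_eq_zero hb
  choose rt hrt hrt0 using hroot
  set H' : MvPolynomial (Fin 2) k := ∑ m ∈ H.support, monomial m (rt (coeff m H)) with hH'
  have hc : ∀ m, coeff m H' = rt (coeff m H) := by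
    classical
    intro m
    rw [hH', coeff_sum]
    simp_rw [coeff_monomial]
    rw [Finset.sum_ite_eq']
    split_ifs with h1
    · rfl
    · rw [notMem_support_iff.1 h1, hrt0 0 rfl]
  have hmap : MvPolynomial.map (frobenius k p) H' = H := by
    ext m
    rw [coeff_map, hc, frobenius_def, hrt]
  have hwt : ∀ m : Ex, wt (fun i => (p : ℝ) * w i) m = p * wt w m := fun m => by
    simp only [wt]
    ring
  have h0 : H' = 0 := by
    refine h (d' / p) (by positivity) H' (fun m hm => ?_) (fun be hbe => ?_)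
    · have h1 : m ∈ H.support := by
        rw [mem_support_iff] at hm ⊢
        intro h2
        apply hm
        rw [hc, h2, hrt0 0 rfl]
      have h2 := hiso m h1
      rw [hwt] at h2
      rw [← h2]
      field_simp
    · have h1 := hinv be (by
        rw [hwt]
        rwa [lt_div_iff₀' hp0] at hbe)
      have e1 : (Polynomial.C (y 1 ^ p) + Φ.map (frobenius Ω p)) =
          (Polynomial.C (y 1) + Φ).map (frobenius Ω p) := by
        rw [Polynomial.map_add, Polynomial.map_C, frobenius_def]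
      rw [e1, ← hmap, ← TWLG76.LL_twist p, hwt, coeff_map, frobenius_def, ← LL_eq] at h1
      intro h3
      have h4 := h1 (pow_ne_zero _ h3)
      rw [v.map_pow h3] at h4
      have h5 : (p : ℝ) * (wt w be - d' / p) < p * v (coeff be (LL k y Φ H')) := by
        have h6 : (p : ℝ) * (wt w be - d' / p) = p * wt w be - d' := by
          field_simp
        rw [h6]
        exact h4
      exact lt_of_mul_lt_mul_left h5 hp0.le
  rw [← hmap, h0, map_zero]

/-- The coefficients at and above the diagonal are strictly small. -/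
theorem hposS_of (hk : Ctx0 k v) {w₀ w₁ : ℝ} (hw0 : 0 < w₀) (hw : w₀ ≤ w₁) {y₀ : Ω}
    (hy0 : y₀ ≠ 0) (hv : v y₀ = - w₀) {Ψ : Polynomial Ω} {f : Polynomial k}
    (hdec : ∀ j : ℕ, 1 ≤ j → ∃ r : Polynomial k, r.coeff 0 = 0 ∧
      Gt v (-(w₀ - j * w₀)) (Ψ.coeff j - Polynomial.aeval y₀ r)) (j : ℕ)
    (hjw : w₁ ≤ j * w₀) (hj : v.Ge (j * w₀ - w₁) ((TWLG76.Sh y₀ f Ψ).coeff j)) :
    Gt v (j * w₀ - w₁) ((TWLG76.Sh y₀ f Ψ).coeff j) := by
  rcases Nat.eq_zero_or_pos j with rfl | hj1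
  · exfalso
    push_cast at hjw
    linarith
  obtain ⟨r, hr0, hr⟩ := hdec j hj1
  set g := r + (Polynomial.C (f.coeff j) - Polynomial.hasseDeriv j f) with hg
  have h1 : (TWLG76.Sh y₀ f Ψ).coeff j = (Ψ.coeff j - Polynomial.aeval y₀ r) +
      Polynomial.aeval y₀ g := by
    rw [TWLG76.Sh_coeff, hg, map_add]
    ring
  by_cases hg0 : g = 0
  · rw [h1, hg0, map_zero, add_zero]
    refine hr.mono ?_
    linarith
  · exfalso
    obtain ⟨h2, h3⟩ := TWLG76.v_aeval hk hw0 hy0 hv hg0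
    have hgc : g.coeff 0 = 0 := by
      rw [hg, Polynomial.coeff_add, hr0, Polynomial.coeff_sub, Polynomial.coeff_C_zero,
        Polynomial.hasseDeriv_coeff, zero_add, zero_add, Nat.choose_self, Nat.cast_one, one_mul,
        sub_self]
    have hdeg : 1 ≤ g.natDegree := by
      by_contra hcon
      have h5 : g.natDegree = 0 := by omega
      rw [Polynomial.eq_C_of_natDegree_eq_zero h5, hgc, map_zero] at hg0
      exact hg0 rfl
    have hdeg' : (1 : ℝ) ≤ (g.natDegree : ℝ) := by exact_mod_cast hdeg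
    have h1j : (1 : ℝ) ≤ j := by exact_mod_cast hj1
    have h4 : w₀ ≤ (g.natDegree : ℝ) * w₀ := by nlinarith
    have h5 : Gt v (v (Polynomial.aeval y₀ g)) (Polynomial.aeval y₀ g -
        (TWLG76.Sh y₀ f Ψ).coeff j) := by
      rw [h1, sub_add_cancel_right, h3]
      refine (hr.mono ?_).neg
      nlinarith
    obtain ⟨h6, h7⟩ := Gt.val_eq h2 h5
    have h8 := hj h6
    rw [h7, h3] at h8
    linarith

/-- **Good coordinates**, for the integral form. -/
theorem exists_posL (p : ℕ) [hp : Fact p.Prime] [CharP k p] [IsAlgClosed k]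
    (hk : Ctx0 k v) {w₀ : ℝ} (hw0 : 0 < w₀) {y₀ : Ω} (hy0 : y₀ ≠ 0) (hv : v y₀ = - w₀)
    {Ψ : Polynomial Ω}
    (hdec : ∀ j : ℕ, 1 ≤ j → ∃ r : Polynomial k, r.coeff 0 = 0 ∧
      Gt v (-(w₀ - j * w₀)) (Ψ.coeff j - Polynomial.aeval y₀ r)) :
    ∃ (f : Polynomial k) (w₁ : ℝ), f.coeff 0 = 0 ∧
      (w₁ < w₀ ∧ (∀ j : ℕ, v.Ge (j * w₀ - w₁) ((TWLG76.Sh y₀ f Ψ).coeff j)) ∨
      (w₀ ≤ w₁ ∧ Siz v ![w₀, w₁] ![y₀, 0] (TWLG76.Sh y₀ f Ψ) ∧
        (∃ j : ℕ, (TWLG76.Sh y₀ f Ψ).coeff j ≠ 0 ∧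
          v ((TWLG76.Sh y₀ f Ψ).coeff j) = j * w₀ - w₁) ∧
        DnsL k v ![w₀, w₁] ![y₀, 0] (TWLG76.Sh y₀ f Ψ))) := by
  have : CharP Ω p := charP_of_injective_algebraMap (algebraMap k Ω).injective p
  obtain ⟨f, w₁, hf, h1 | ⟨h1, h2, h3, h4, h5⟩⟩ := TWLG76.exists_pos p hk hw0 hy0 hv
    (Ψ := Ψ) fun j hj => by
      obtain ⟨r, -, hr⟩ := hdec j hj
      exact ⟨r, hr⟩
  · refine ⟨f, w₁, hf, Or.inl ⟨h1.1, fun j => ?_⟩⟩
    have h2 := h1.2 j
    rwa [neg_sub] at h2
  · refine ⟨f, w₁, hf, Or.inr ⟨h1, h2, h3, ?_⟩⟩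
    exact dnsL_of_dns hk hw0 (hw0.trans_le h1) h2
      (fun j hj => hposS_of hk hw0 h1 hy0 hv hdec j hj (h2.phi j)) h4

end dns

end Pool.Agent.TWLG64
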