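import Pool.Agent.Lib.TWLG64.Top

/-!
# Right translates of a position: the bound (E2)
-/

set_option autoImplicit false

namespace Pool.Agent.TWLG64

open MvPolynomial
open TWIV.JW (BB sh cz)
open Pool.Agent.H15JM (RVal)
open Pool.Agent.LU1 (VPos)
open Pool.Agent.D2 (Ctx0)
open Pool.Agent.TWM (Gt)
open Pool.Agent.TWLY

universe u

variable {k Ω : Type u} [Field k] [Field Ω] [Algebra k Ω] {v : RVal Ω} {w : Fin 2 → ℝ}
  {p : ℕ} [Fact p.Prime] [CharP k p] {κ : ℕ → k} {t : ℕ} {y : Fin 2 → Ω} {Φ : Polynomial Ω}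

/-- From the two inputs: the coefficients with exponent not divisible by `p ^ (t + 1)`. -/
theorem key_coeff (hk : Ctx0 k v) (hκ : κ t ≠ 0) (hw : ∀ i, 0 ≤ w i) (hS : Siz v w y Φ)
    {d B r : ℝ} (hd : 0 < d) (hr : 0 ≤ r) (hBr : B + r ≤ d) {G : MvPolynomial (Fin 2) k}
    (hG : ∀ m ∈ G.support, wt w m ≤ d)
    (h2 : ∃ lam : MvPolynomial (Fin 2) Ω, ∀ β : Ex, β ≠ 0 → B ≤ wt w β →
      coeff β (PP p κ t lam + (LL k y Φ G - mp Ω G)) = 0)
    (h3 : ∃ ζ : MvPolynomial (Fin 2) Ω, ∀ β : Ex, β ≠ 0 →
      v.Ge (-r) (coeff β (PP p κ t ζ + LL k y Φ G))) (β : Ex)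
    (hβ : ∀ α, β ≠ p ^ (t + 1) • α) :
    Gt v (wt w β - d) (coeff β (LL k y Φ (tpp w d G) - mp Ω (tpp w d G))) := by
  classical
  have hFG : Fil v w d (LL k y Φ G) := hS.fil hk hG
  have hmG : ∀ β : Ex, Gt v (wt w β - d) (coeff β (mp Ω G)) ∨ wt w β = d := by
    intro β
    rw [coeff_mp]
    by_cases h0 : coeff β G = 0
    · left
      rw [h0, map_zero]
      exact Gt.zero
    · rcases (hG β (mem_support_iff.mpr h0)).lt_or_eq with h1 | h1
      · left
        exact Gt.of_ge (hk.ge _) (by linarith)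
      · exact Or.inr h1
  have hFm : Fil v w d (mp Ω G) := by
    intro β
    rw [coeff_mp]
    by_cases h0 : coeff β G = 0
    · rw [h0, map_zero]
      exact fun h => absurd rfl h
    · exact (hk.ge _).mono (by linarith [hG β (mem_support_iff.mpr h0)])
  have hmain : Gt v (wt w β - d) (coeff β (LL k y Φ G - mp Ω G)) := by
    by_cases hB : B ≤ wt w β
    · obtain ⟨lam, h2⟩ := h2
      exact chain_exact hk hκ hd hw (hFG.sub hFm) h2 β hβ hB
    · push Not at hB
      obtain ⟨ζ, h3⟩ := h3
      have h4 := chain_err hk hκ hd hr hw hFG h3 β hβ (by linarith)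
      rw [coeff_sub]
      refine h4.sub ?_
      rcases hmG β with h5 | h5
      · exact h5
      · linarith
  -- the lower part
  set G' := G - tpp w d G with hG'
  have hG's : ∀ m ∈ G'.support, wt w m < d := by
    intro m hm
    rw [mem_support_iff, hG', coeff_sub, coeff_tpp] at hm
    split_ifs at hm with h1
    · exact absurd (sub_self _) hm
    · rw [sub_zero] at hm
      exact lt_of_le_of_ne (hG m (mem_support_iff.mpr hm)) h1
  have h4 : LL k y Φ (tpp w d G) - mp Ω (tpp w d G) = (LL k y Φ G - mp Ω G) -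
      (LL k y Φ G' - mp Ω G') := by
    rw [hG', map_sub, map_sub]
    ring
  rw [h4, coeff_sub, coeff_sub (R := Ω) (p := LL k y Φ G') (q := mp Ω G')]
  refine hmain.sub ((hS.gt hk hG's β).sub ?_)
  rw [coeff_mp]
  by_cases h0 : coeff β G' = 0
  · rw [h0, map_zero]
    exact Gt.zero
  · exact Gt.of_ge (hk.ge _) (by linarith [hG's β (mem_support_iff.mpr h0)])

/-- The bound for the top form from the invariance of its reduced part. -/
theorem top_bound (hk : Ctx0 k v) (hw0 : 0 ≤ w 0) (hw01 : w 0 ≤ w 1)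
    (hy : 0 < w 0 → y 0 ≠ 0 ∧ v (y 0) = -(w 0)) (hD : Dns k v w y Φ)
    {d : ℝ} (hd : 0 < d) {G : MvPolynomial (Fin 2) k}
    (hG1 : ∃ m ∈ G.support, wt w m = d)
    (hG2 : ∀ m ∈ G.support, wt w m = d → ∀ α, m ≠ p ^ (t + 1) • α)
    (hkey : ∀ β : Ex, (∀ α, β ≠ p ^ (t + 1) • α) →
      Gt v (wt w β - d) (coeff β (LL k y Φ (tpp w d G) - mp Ω (tpp w d G)))) :
    d ≤ (p : ℝ) ^ t * w 1 := by
  classical
  have : CharP Ω p := charP_of_injective_algebraMap (algebraMap k Ω).injective p
  have hp : 1 < p := Nat.Prime.one_lt Fact.out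
  have hw : ∀ i, 0 ≤ w i := fun i => by
    fin_cases i
    · exact hw0
    · exact hw0.trans hw01
  have hQpos : 0 < p ^ (t + 1) := by positivity
  set T := tpp w d G with hT
  have hTs : ∀ m : Ex, m ∈ T.support ↔ m ∈ G.support ∧ wt w m = d := by
    intro m
    rw [mem_support_iff, hT, coeff_tpp, mem_support_iff]
    split_ifs with h1
    · simp [h1]
    · simp [h1]
  have hpt : ∀ j ≤ t, ∀ i, (p : ℝ) ^ j * w i ≤ (p : ℝ) ^ t * w 1 := by
    intro j hj i
    have h1 : (p : ℝ) ^ j ≤ (p : ℝ) ^ t := pow_le_pow_right₀ (by exact_mod_cast hp.le) hj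
    have h3 : w i ≤ w 1 := by
      fin_cases i
      · exact hw01
      · exact le_rfl
    have h4 := hw i
    have h5 : (0 : ℝ) < (p : ℝ) ^ j := by positivity
    have h6 := hw 1
    calc (p : ℝ) ^ j * w i ≤ (p : ℝ) ^ j * w 1 := by gcongr
      _ ≤ (p : ℝ) ^ t * w 1 := by gcongr
  by_cases hc1 : ∃ m ∈ T.support, ¬ p ^ (t + 1) ∣ m 1
  · -- the second variable
    obtain ⟨m', hm', hndvd⟩ := hc1
    have hm1 : m' 1 ≠ 0 := by
      intro h
      exact hndvd (by rw [h]; exact dvd_zero _)
    obtain ⟨j, c, hc, hjc⟩ := Nat.exists_eq_pow_mul_and_not_dvd hm1 p hp.ne'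
    have hjt : j ≤ t := by
      by_contra h
      push Not at h
      exact hndvd (by rw [hjc]; exact (pow_dvd_pow p h).mul_right c)
    have hc0 : c ≠ 0 := by
      rintro rfl
      exact hc (dvd_zero _)
    set b := p ^ j with hb
    by_contra hcon
    push Not at hcon
    have hd' : 0 < d - b * w 1 := by
      have := hpt j hjt 1
      rw [hb]
      push_cast
      linarith
    have hH : dc b T = 0 := by
      refine hD (d - b * w 1) hd' (dc b T) ?_ ?_
      · intro m hm
        rw [mem_support_iff, coeff_dc] at hm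
        have h1 := (hTs _).mp (mem_support_iff.mpr (right_ne_zero_of_mul hm))
        have h4 := h1.2
        rw [wt_add, wt_single] at h4
        linarith
      · intro β
        rw [← dc_LL, ← dc_mp, ← dc_sub, coeff_dc]
        have hwt : wt w (β + Finsupp.single 1 b) - d = wt w β - (d - b * w 1) := by
          rw [wt_add, wt_single]
          ring
        by_cases h1 : ∀ α, β + Finsupp.single 1 b ≠ p ^ (t + 1) • α
        · have h4 := hkey _ h1
          rw [hwt] at h4
          rw [mul_comm (((β 1 + b).choose b : ℕ) : Ω)]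
          have h5 : v.Ge 0 (((β 1 + b).choose b : ℕ) : Ω) := TWM.ge_natCast v _
          have h6 := Gt.mul_ge h4 h5
          rwa [add_zero] at h6
        · push Not at h1
          obtain ⟨α, hα⟩ := h1
          have h4 := DFunLike.congr_fun hα 1
          simp only [Finsupp.add_apply, Finsupp.single_eq_same, Finsupp.smul_apply,
            smul_eq_mul] at h4
          have h5 : (((β 1 + b).choose b : ℕ) : Ω) = 0 := by
            rw [CharP.cast_eq_zero_iff Ω p]
            have h6 : p ^ (t + 1) * α 1 = p ^ j * (p ^ (t + 1 - j) * α 1) := by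
              rw [← mul_assoc, ← pow_add]
              congr 2
              omega
            have h7 := choose_pow_mul p j (p ^ (t + 1 - j) * α 1) 1
            rw [mul_one, Nat.choose_one_right, ← h6, ← h4, ← hb] at h7
            refine Nat.modEq_zero_iff_dvd.mp (h7.trans (Nat.modEq_zero_iff_dvd.mpr ?_))
            exact (dvd_pow_self p (by omega)).mul_right _
          rw [h5, zero_mul]
          exact Gt.zero
    have h1 : coeff (mk (m' 0) (m' 1 - b)) (dc b T) = 0 := by rw [hH, coeff_zero]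
    have hbm : b ≤ m' 1 := by
      rw [hjc, hb]
      exact Nat.le_mul_of_pos_right _ (Nat.pos_of_ne_zero hc0)
    have h4 : mk (m' 0) (m' 1 - b) + Finsupp.single 1 b = m' := by
      refine ex_ext ?_ ?_
      · simp
      · simp
        omega
    rw [coeff_dc, h4, mk_one', Nat.sub_add_cancel hbm] at h1
    rcases mul_eq_zero.mp h1 with h5 | h5
    · rw [CharP.cast_eq_zero_iff k p] at h5
      have h7 := choose_pow_mul p j c 1
      rw [mul_one, Nat.choose_one_right, ← hjc, ← hb] at h7
      exact hc (Nat.modEq_zero_iff_dvd.mp (h7.symm.trans (Nat.modEq_zero_iff_dvd.mpr h5)))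
    · exact (mem_support_iff.mp hm') h5
  · -- all exponents of the second variable are divisible by `p ^ (t + 1)`
    push Not at hc1
    have hTne : T.support.Nonempty := by
      obtain ⟨m, hm, hmd⟩ := hG1
      exact ⟨m, (hTs m).mpr ⟨hm, hmd⟩⟩
    obtain ⟨ms, hms, hmax⟩ := T.support.exists_max_image (fun m => m 0 % p ^ (t + 1)) hTne
    set i₀ := ms 0 % p ^ (t + 1) with hi₀
    have hi₀Q : i₀ < p ^ (t + 1) := Nat.mod_lt _ hQpos
    have hres : ∀ m ∈ T.support, m 0 % p ^ (t + 1) ≠ 0 := by
      intro m hm h0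
      obtain ⟨a, ha⟩ := Nat.dvd_of_mod_eq_zero h0
      obtain ⟨b, hb⟩ := hc1 m hm
      have h1 := (hTs m).mp hm
      refine hG2 m h1.1 h1.2 (mk a b) (ex_ext ?_ ?_)
      · simp [ha]
      · simp [hb]
    have hi₀0 : i₀ ≠ 0 := hres ms hms
    set H : MvPolynomial (Fin 2) k := ∑ m ∈ T.support with m 0 % p ^ (t + 1) = i₀,
      monomial (m - Finsupp.single 0 i₀) (coeff m T) with hHdef
    have hsub : ∀ m : Ex, m 0 % p ^ (t + 1) = i₀ →
        m - Finsupp.single 0 i₀ + Finsupp.single 0 i₀ = m := by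
      intro m hm
      refine tsub_add_cancel_of_le ?_
      intro a
      fin_cases a
      · simp only [Fin.zero_eta, Finsupp.single_eq_same]
        rw [← hm]
        exact Nat.mod_le _ _
      · simp
    have hcoH : ∀ m : Ex, m 0 % p ^ (t + 1) = i₀ →
        coeff (m - Finsupp.single 0 i₀) H = coeff m T := by
      intro m hm
      rw [hHdef, coeff_sum]
      simp_rw [coeff_monomial]
      by_cases h0 : m ∈ T.support
      · rw [Finset.sum_eq_single m]
        · rw [if_pos rfl]
        · intro m'' hm'' hne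
          rw [Finset.mem_filter] at hm''
          rw [if_neg]
          intro h1
          apply hne
          rw [← hsub m'' hm''.2, h1, hsub m hm]
        · intro h1
          exact absurd (Finset.mem_filter.mpr ⟨h0, hm⟩) h1
      · rw [notMem_support_iff.mp h0]
        refine Finset.sum_eq_zero fun m'' hm'' => ?_
        rw [Finset.mem_filter] at hm''
        rw [if_neg]
        intro h1
        apply h0
        rw [← hsub m hm, ← h1, hsub m'' hm''.2]
        exact hm''.1
    have hHs : ∀ m ∈ H.support, ∃ m' ∈ T.support, m' 0 % p ^ (t + 1) = i₀ ∧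
        m = m' - Finsupp.single 0 i₀ := by
      intro m hm
      rw [mem_support_iff, hHdef, coeff_sum] at hm
      obtain ⟨m', hm', h1⟩ := Finset.exists_ne_zero_of_sum_ne_zero hm
      rw [Finset.mem_filter] at hm'
      rw [coeff_monomial] at h1
      split_ifs at h1 with h4
      · exact ⟨m', hm'.1, hm'.2, h4.symm⟩
      · exact absurd rfl h1
    -- the translate of `H`
    have hLH : ∀ α : Ex, coeff (p ^ (t + 1) • α) (LL k y Φ H) =
        coeff (p ^ (t + 1) • α + Finsupp.single 0 i₀) (LL k y Φ T) := by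
      intro α
      conv_rhs => rw [T.as_sum]
      rw [hHdef, map_sum, map_sum, coeff_sum, coeff_sum, Finset.sum_filter]
      refine Finset.sum_congr rfl fun m hm => ?_
      obtain ⟨M, hM1, hM2, hM3⟩ := LL_split (y := y) (Φ := Φ) (m := m) (t := t) rfl
        (hc1 m hm) (coeff m T)
      rw [hM2, coeff_res (hmax m hm) hi₀Q _ hM1]
      split_ifs with h1
      · rw [← hM3, h1]
      · rfl
    have hQH : Qd (p ^ (t + 1)) (LL k y Φ H) := by
      intro β hβ
      rw [hHdef, map_sum, coeff_sum] at hβ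
      obtain ⟨m, hm, h1⟩ := Finset.exists_ne_zero_of_sum_ne_zero hβ
      rw [Finset.mem_filter] at hm
      obtain ⟨M, hM1, hM2, hM3⟩ := LL_split (y := y) (Φ := Φ) (m := m) (t := t) rfl
        (hc1 m hm.1) (coeff m T)
      rw [hm.2] at hM3
      rw [hM3] at h1
      exact hM1 _ h1
    have hQmH : Qd (p ^ (t + 1)) (mp Ω H) := by
      intro β hβ
      rw [coeff_mp] at hβ
      have h1 : coeff β H ≠ 0 := fun h => hβ (by rw [h, map_zero])
      obtain ⟨m', hm', h4, h5⟩ := hHs β (mem_support_iff.mpr h1)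
      obtain ⟨b, hb⟩ := hc1 m' hm'
      refine ⟨mk (m' 0 / p ^ (t + 1)) b, ex_ext ?_ ?_⟩
      · rw [h5, Finsupp.tsub_apply, Finsupp.single_eq_same, Finsupp.smul_apply, mk_zero',
          smul_eq_mul, ← h4]
        have := Nat.div_add_mod (m' 0) (p ^ (t + 1))
        omega
      · rw [h5, Finsupp.tsub_apply, hb]
        simp
    have hHw : ∀ m ∈ H.support, wt w m = d - i₀ * w 0 := by
      intro m hm
      obtain ⟨m', hm', h4, h5⟩ := hHs m hm
      have h6 := ((hTs m').mp hm').2
      rw [← hsub m' h4, wt_add, wt_single, ← h5] at h6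
      linarith
    have hdi : d ≤ i₀ * w 0 := by
      by_contra hcon
      push Not at hcon
      have hH0 : H = 0 := by
        refine hD (d - i₀ * w 0) (by linarith) H hHw fun β => ?_
        by_cases hβ : ∃ α, β = p ^ (t + 1) • α
        · obtain ⟨α, rfl⟩ := hβ
          have hnot : ∀ α', p ^ (t + 1) • α + Finsupp.single 0 i₀ ≠ p ^ (t + 1) • α' := by
            intro α' h1
            have h4 := DFunLike.congr_fun h1 0
            simp only [Finsupp.add_apply, Finsupp.smul_apply, Finsupp.single_eq_same,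
              smul_eq_mul] at h4
            have h5 : p ^ (t + 1) ∣ i₀ :=
              (Nat.dvd_add_right ⟨α 0, rfl⟩).mp ⟨α' 0, h4⟩
            exact hi₀0 (Nat.eq_zero_of_dvd_of_lt h5 hi₀Q)
          have h1 := hkey _ hnot
          have h4 : coeff (p ^ (t + 1) • α) (mp Ω H) =
              coeff (p ^ (t + 1) • α + Finsupp.single 0 i₀) (mp Ω T) := by
            rw [coeff_mp, coeff_mp]
            congr 1
            have h5 : (p ^ (t + 1) • α + Finsupp.single 0 i₀ : Ex) 0 % p ^ (t + 1) = i₀ := by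
              simp only [Finsupp.add_apply, Finsupp.smul_apply, Finsupp.single_eq_same,
                smul_eq_mul, Nat.mul_add_mod]
              exact Nat.mod_eq_of_lt hi₀Q
            rw [← hcoH _ h5, add_tsub_cancel_right]
          rw [coeff_sub, hLH, h4, ← coeff_sub]
          rw [wt_add, wt_single] at h1
          have h5 : wt w (p ^ (t + 1) • α) + i₀ * w 0 - d =
              wt w (p ^ (t + 1) • α) - (d - i₀ * w 0) := by ring
          rwa [h5] at h1
        · have h1 : coeff β (LL k y Φ H) = 0 := by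
            by_contra h4
            exact hβ (hQH β h4)
          have h4 : coeff β (mp Ω H) = 0 := by
            by_contra h5
            exact hβ (hQmH β h5)
          rw [coeff_sub, h1, h4, sub_zero]
          exact Gt.zero
      have h1 := hcoH ms hi₀.symm
      rw [hH0, coeff_zero] at h1
      exact (mem_support_iff.mp hms) h1.symm
    have hw0pos : 0 < w 0 := by
      by_contra h
      push Not at h
      have h1 : w 0 = 0 := le_antisymm h hw0
      rw [h1, mul_zero] at hdi
      linarith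
    have hw1pos : 0 < w 1 := hw0pos.trans_le hw01
    -- all monomials are the same
    have hsame : ∀ m ∈ T.support, m = Finsupp.single 0 (m 0 % p ^ (t + 1)) := by
      intro m hm
      have h1 := ((hTs m).mp hm).2
      obtain ⟨b, hb⟩ := hc1 m hm
      have hdm := Nat.div_add_mod (m 0) (p ^ (t + 1))
      have hdm' : ((m 0 : ℕ) : ℝ) = (p : ℝ) ^ (t + 1) * ((m 0 / p ^ (t + 1) : ℕ) : ℝ) +
          ((m 0 % p ^ (t + 1) : ℕ) : ℝ) := by exact_mod_cast hdm.symm
      have hb' : ((m 1 : ℕ) : ℝ) = (p : ℝ) ^ (t + 1) * (b : ℝ) := by exact_mod_cast hb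
      have hi0r : (i₀ : ℝ) < (p : ℝ) ^ (t + 1) := by exact_mod_cast hi₀Q
      have hQr : (0 : ℝ) < (p : ℝ) ^ (t + 1) := by positivity
      unfold wt at h1
      rw [hdm', hb'] at h1
      have hlt : (p : ℝ) ^ (t + 1) * ((m 0 / p ^ (t + 1) : ℕ) : ℝ) * w 0 +
          (p : ℝ) ^ (t + 1) * (b : ℝ) * w 1 < (p : ℝ) ^ (t + 1) * w 0 := by
        have h4 : (0 : ℝ) ≤ ((m 0 % p ^ (t + 1) : ℕ) : ℝ) * w 0 := by positivity
        nlinarith
      have hl0 : m 0 / p ^ (t + 1) = 0 := by
        by_contra h4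
        have h5 : (1 : ℝ) ≤ ((m 0 / p ^ (t + 1) : ℕ) : ℝ) := by
          exact_mod_cast Nat.one_le_iff_ne_zero.mpr h4
        have h6 : (p : ℝ) ^ (t + 1) * w 0 ≤
            (p : ℝ) ^ (t + 1) * ((m 0 / p ^ (t + 1) : ℕ) : ℝ) * w 0 := by
          have : 0 < (p : ℝ) ^ (t + 1) * w 0 := by positivity
          nlinarith
        have h7 : (0 : ℝ) ≤ (p : ℝ) ^ (t + 1) * (b : ℝ) * w 1 := by positivity
        linarith
      have hb0 : b = 0 := by
        by_contra h4
        have h5 : (1 : ℝ) ≤ (b : ℝ) := by exact_mod_cast Nat.one_le_iff_ne_zero.mpr h4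
        have h6 : (p : ℝ) ^ (t + 1) * w 0 ≤ (p : ℝ) ^ (t + 1) * (b : ℝ) * w 1 := by
          have h8 : (p : ℝ) ^ (t + 1) * w 0 ≤ (p : ℝ) ^ (t + 1) * w 1 := by nlinarith
          have h9 : 0 < (p : ℝ) ^ (t + 1) * w 1 := by positivity
          nlinarith
        have h7 : (0 : ℝ) ≤ (p : ℝ) ^ (t + 1) * ((m 0 / p ^ (t + 1) : ℕ) : ℝ) * w 0 := by
          positivity
        linarith
      refine ex_ext ?_ ?_
      · rw [Finsupp.single_eq_same]
        rw [hl0, mul_zero, zero_add] at hdm
        exact hdm.symm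
      · rw [hb, hb0, mul_zero]
        simp
    have hmss : ms = Finsupp.single 0 i₀ := hsame ms hms
    have hdeq : d = i₀ * w 0 := by
      have h1 := ((hTs ms).mp hms).2
      rw [hmss, wt_single] at h1
      exact h1.symm
    have hall : ∀ m ∈ T.support, m = Finsupp.single 0 i₀ := by
      intro m hm
      have h1 := hsame m hm
      have h4 := ((hTs m).mp hm).2
      rw [h1, wt_single, hdeq] at h4
      have h5 := mul_right_cancel₀ hw0pos.ne' h4
      have h6 : m 0 % p ^ (t + 1) = i₀ := by exact_mod_cast h5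
      rw [h1, h6]
    set a := coeff (Finsupp.single 0 i₀ : Ex) T with ha
    have ha0 : a ≠ 0 := by
      rw [ha, ← hmss]
      exact mem_support_iff.mp hms
    have hTm : T = monomial (Finsupp.single 0 i₀) a := by
      ext m
      rw [coeff_monomial]
      split_ifs with h1
      · rw [← h1]
      · by_contra h4
        exact h1 (hall m (mem_support_iff.mpr h4)).symm
    -- `i₀` is a power of `p`
    have hpow : ∃ a, i₀ = p ^ a := by
      by_contra hnp
      push Not at hnp
      obtain ⟨j, l, hj, hl, hjl, hch⟩ := exists_split_nat p Ω hi₀0 hnp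
      have hβ : ∀ α, (Finsupp.single 0 j : Ex) ≠ p ^ (t + 1) • α := by
        intro α h1
        have h4 := DFunLike.congr_fun h1 0
        rw [Finsupp.single_eq_same, Finsupp.smul_apply, smul_eq_mul] at h4
        exact hj (Nat.eq_zero_of_dvd_of_lt ⟨_, h4⟩ (by omega))
      have h1 := hkey _ hβ
      have h4 : coeff (Finsupp.single 0 j : Ex) (LL k y Φ T) =
          algebraMap k Ω a * (y 0 ^ (i₀ - j) * (i₀.choose j : Ω)) := by
        rw [hTm, LL, aeval_monomial, Finsupp.prod_fintype _ _ (by simp), Fin.prod_univ_two,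
          IsScalarTower.algebraMap_apply k Ω (MvPolynomial (Fin 2) Ω), algebraMap_eq,
          coeff_C_mul]
        congr 1
        have e1 : (Finsupp.single 0 i₀ : Ex) 1 = 0 := by simp
        rw [e1, pow_zero, mul_one, Finsupp.single_eq_same]
        simp only [Matrix.cons_val_zero]
        rw [add_pow, coeff_sum, Finset.sum_eq_single j]
        · rw [X_pow_eq_monomial, ← C_pow]
          have e2 : ((i₀.choose j : ℕ) : MvPolynomial (Fin 2) Ω) = C ((i₀.choose j : ℕ) : Ω) := by
            simp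
          rw [e2, mul_assoc, ← C_mul, mul_comm, coeff_C_mul, coeff_monomial, if_pos rfl, mul_one]
        · intro j' _ hne
          rw [X_pow_eq_monomial, ← C_pow]
          have e2 : ((i₀.choose j' : ℕ) : MvPolynomial (Fin 2) Ω) =
            C ((i₀.choose j' : ℕ) : Ω) := by simp
          rw [e2, mul_assoc, ← C_mul, mul_comm, coeff_C_mul, coeff_monomial, if_neg, mul_zero]
          intro h6
          exact hne (Finsupp.single_injective 0 h6)
        · intro h6
          exact absurd (Finset.mem_range.mpr (by omega)) h6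
      have h5 : coeff (Finsupp.single 0 j : Ex) (mp Ω T) = 0 := by
        rw [coeff_mp, hTm, coeff_monomial, if_neg, map_zero]
        intro h6
        have := Finsupp.single_injective 0 h6
        omega
      rw [coeff_sub, h4, h5, sub_zero] at h1
      have hch' : ((i₀.choose j : ℕ) : Ω) ≠ 0 := by
        rw [← hjl]
        exact hch
      obtain ⟨hy0, hyv⟩ := hy hw0pos
      have ha' : algebraMap k Ω a ≠ 0 := by simpa using ha0
      have hch'' : v ((i₀.choose j : ℕ) : Ω) = 0 := by
        have h6 : ((i₀.choose j : ℕ) : Ω) = algebraMap k Ω ((i₀.choose j : ℕ) : k) := by simp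
        have h7 : ((i₀.choose j : ℕ) : k) ≠ 0 := fun h8 => hch' (by rw [h6, h8, map_zero])
        rw [h6, hk.triv _ h7]
      have h6 := h1 (mul_ne_zero ha' (mul_ne_zero (pow_ne_zero _ hy0) hch'))
      rw [v.map_mul ha' (mul_ne_zero (pow_ne_zero _ hy0) hch'), hk.triv _ ha0,
        v.map_mul (pow_ne_zero _ hy0) hch', hch'', v.map_pow hy0, hyv, wt_single, hdeq,
        Nat.cast_sub (by omega)] at h6
      linarith
    obtain ⟨a', ha'⟩ := hpow
    have hat : a' ≤ t := by
      by_contra h
      push Not at h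
      have : p ^ (t + 1) ≤ p ^ a' := Nat.pow_le_pow_right (by omega) h
      omega
    rw [hdeq, ha']
    push_cast
    exact hpt a' hat 0

/-- **The bound (E2).** -/
theorem e2star (hk : Ctx0 k v) (hκ : κ t ≠ 0) (hw0 : 0 ≤ w 0) (hw01 : w 0 ≤ w 1)
    (hS : Siz v w y Φ) (hy : 0 < w 0 → y 0 ≠ 0 ∧ v (y 0) = -(w 0)) (hD : Dns k v w y Φ)
    {d B r : ℝ} (hd : 0 < d) (hr : 0 ≤ r) (hBr : B + r ≤ d) {G : MvPolynomial (Fin 2) k}
    (hG : ∀ m ∈ G.support, wt w m ≤ d) (hG1 : ∃ m ∈ G.support, wt w m = d)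
    (hG2 : ∀ m ∈ G.support, wt w m = d → ∀ α, m ≠ p ^ (t + 1) • α)
    (h2 : ∃ lam : MvPolynomial (Fin 2) Ω, ∀ β : Ex, β ≠ 0 → B ≤ wt w β →
      coeff β (PP p κ t lam + (LL k y Φ G - mp Ω G)) = 0)
    (h3 : ∃ ζ : MvPolynomial (Fin 2) Ω, ∀ β : Ex, β ≠ 0 →
      v.Ge (-r) (coeff β (PP p κ t ζ + LL k y Φ G))) : d ≤ (p : ℝ) ^ t * w 1 := by
  have hw : ∀ i, 0 ≤ w i := fun i => by
    fin_cases i
    · exact hw0
    · exact hw0.trans hw01
  exact top_bound hk hw0 hw01 hy hD hd hG1 hG2
    (key_coeff hk hκ hw hS hd hr hBr hG h2 h3)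

end Pool.Agent.TWLG64
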