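import Pool.Agent.Lib.TWLG64.E2s

/-!
# Right translates of a position: the bound for the top form
-/

set_option autoImplicit false

namespace Pool.Agent.TWLG64

open MvPolynomial
open TWIV.JW (BB sh cz)
open Pool.Agent.H15JM (RVal)
open Pool.Agent.LU1 (VPos)
open Pool.Agent.D2 (Ctx0)
open Pool.Agent.TWM (Gt)
open Pool.Agent.TWLY

universe u

/-! ## polynomials with exponents divisible by `q` -/

section qd

variable {R : Type*} [CommRing R]

/-- all exponents are divisible by `q` -/
def Qd (q : ℕ) (F : MvPolynomial (Fin 2) R) : Prop := ∀ β : Ex, coeff β F ≠ 0 → ∃ α, β = q • α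

theorem Qd.mul {q : ℕ} {F F' : MvPolynomial (Fin 2) R} (h : Qd q F) (h' : Qd q F') :
    Qd q (F * F') := by
  classical
  intro β hβ
  rw [coeff_mul] at hβ
  obtain ⟨x, hx, h1⟩ := Finset.exists_ne_zero_of_sum_ne_zero hβ
  rw [Finset.HasAntidiagonal.mem_antidiagonal] at hx
  obtain ⟨a, ha⟩ := h _ (left_ne_zero_of_mul h1)
  obtain ⟨b, hb⟩ := h' _ (right_ne_zero_of_mul h1)
  exact ⟨a + b, by rw [← hx, ha, hb, smul_add]⟩

theorem Qd.C {q : ℕ} (a : R) : Qd q (MvPolynomial.C a : MvPolynomial (Fin 2) R) := by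
  classical
  intro β hβ
  rw [coeff_C] at hβ
  split_ifs at hβ with h
  · exact ⟨0, by rw [← h, smul_zero]⟩
  · exact absurd rfl hβ

theorem Qd.pow {q : ℕ} {F : MvPolynomial (Fin 2) R} (h : Qd q F) (n : ℕ) : Qd q (F ^ n) := by
  induction n with
  | zero =>
    rw [pow_zero, ← C_1]
    exact Qd.C 1
  | succ n ih =>
    rw [pow_succ]
    exact ih.mul h

theorem Qd.frob {p : ℕ} [Fact p.Prime] [CharP R p] (F : MvPolynomial (Fin 2) R) (i : ℕ) :
    Qd (p ^ i) (F ^ p ^ i) := by
  intro β hβ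
  obtain ⟨m, h1, -⟩ := exists_of_coeff_pow p F i hβ
  exact ⟨m, h1⟩

theorem coeff_res {q i i₀ : ℕ} (hi : i ≤ i₀) (hi₀ : i₀ < q) (y : R)
    {M : MvPolynomial (Fin 2) R} (hM : Qd q M) (α : Ex) :
    coeff (q • α + Finsupp.single 0 i₀) ((X 0 + C y) ^ i * M) =
      if i = i₀ then coeff (q • α) M else 0 := by
  classical
  rw [add_pow, Finset.sum_mul, coeff_sum]
  have key : ∀ j ∈ Finset.range (i + 1), coeff (q • α + Finsupp.single 0 i₀)
      (X 0 ^ j * (C y) ^ (i - j) * ((i.choose j : ℕ) : MvPolynomial (Fin 2) R) * M) =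
      if j = i₀ then coeff (q • α) M else 0 := by
    intro j hj
    rw [Finset.mem_range] at hj
    have e1 : X 0 ^ j * (C y) ^ (i - j) * ((i.choose j : ℕ) : MvPolynomial (Fin 2) R) * M =
        monomial (Finsupp.single 0 j) (y ^ (i - j) * (i.choose j : R)) * M := by
      congr 1
      have e2 : ((i.choose j : ℕ) : MvPolynomial (Fin 2) R) = C ((i.choose j : ℕ) : R) := by simp
      rw [e2, X_pow_eq_monomial, mul_assoc, ← C_pow, ← C_mul, mul_comm, C_mul_monomial, mul_one]
    rw [e1, coeff_monomial_mul']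
    have hle : (Finsupp.single 0 j : Ex) ≤ q • α + Finsupp.single 0 i₀ := by
      intro a
      fin_cases a
      · simp
        omega
      · simp
    rw [if_pos hle]
    have e3 : q • α + Finsupp.single 0 i₀ - Finsupp.single 0 j =
        q • α + Finsupp.single 0 (i₀ - j) := by
      refine ex_ext ?_ ?_
      · simp
        omega
      · simp
    rw [e3]
    split_ifs with h1
    · subst h1
      have h2 : i = j := by omega
      subst h2
      simp
    · have h2 : coeff (q • α + Finsupp.single 0 (i₀ - j)) M = 0 := by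
        by_contra h3
        obtain ⟨α', h4⟩ := hM _ h3
        have h5 := DFunLike.congr_fun h4 0
        simp only [Finsupp.add_apply, Finsupp.smul_apply, Finsupp.single_eq_same,
          smul_eq_mul] at h5
        have h6 : q ∣ i₀ - j := by
          have h7 : q ∣ q * α 0 + (i₀ - j) := ⟨_, h5⟩
          exact (Nat.dvd_add_right ⟨α 0, rfl⟩).mp h7
        have h7 := Nat.eq_zero_of_dvd_of_lt h6 (by omega)
        omega
      rw [h2, mul_zero]
  rw [Finset.sum_congr rfl key]
  by_cases h1 : i = i₀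
  · subst h1
    rw [if_pos rfl, Finset.sum_ite_eq', if_pos (Finset.mem_range.mpr (by omega))]
  · rw [if_neg h1]
    refine Finset.sum_eq_zero fun j hj => ?_
    rw [Finset.mem_range] at hj
    rw [if_neg (by omega)]

end qd

variable {k Ω : Type u} [Field k] [Field Ω] [Algebra k Ω] {v : RVal Ω} {w : Fin 2 → ℝ}
  {p : ℕ} [Fact p.Prime] [CharP k p] {κ : ℕ → k} {t : ℕ} {y : Fin 2 → Ω} {Φ : Polynomial Ω}

/-- splitting of a monomial after the translation -/
theorem LL_split {m : Ex} {i : ℕ} (hi : i = m 0 % p ^ (t + 1)) (hm1 : p ^ (t + 1) ∣ m 1)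
    (a : k) :
    ∃ M : MvPolynomial (Fin 2) Ω, Qd (p ^ (t + 1)) M ∧
      LL k y Φ (monomial m a) = (X 0 + C (y 0)) ^ i * M ∧
      LL k y Φ (monomial (m - Finsupp.single 0 i) a) = M := by
  have : CharP Ω p := charP_of_injective_algebraMap (algebraMap k Ω).injective p
  obtain ⟨n, hn⟩ := hm1
  set l := m 0 / p ^ (t + 1) with hl
  have hml : m 0 = p ^ (t + 1) * l + i := by
    rw [hl, hi, Nat.div_add_mod]
  refine ⟨C (algebraMap k Ω a) * (((X 0 + C (y 0)) ^ p ^ (t + 1)) ^ l *
    ((X 1 + C (y 1) + Polynomial.aeval (X 0) Φ) ^ p ^ (t + 1)) ^ n), ?_, ?_, ?_⟩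
  · exact (Qd.C _).mul (((Qd.frob _ _).pow _).mul ((Qd.frob _ _).pow _))
  · rw [LL, aeval_monomial, Finsupp.prod_fintype _ _ (by simp), Fin.prod_univ_two,
      IsScalarTower.algebraMap_apply k Ω (MvPolynomial (Fin 2) Ω), algebraMap_eq, hn, hml]
    simp only [Matrix.cons_val_zero, Matrix.cons_val_one]
    rw [pow_add, pow_mul, pow_mul]
    ring
  · rw [LL, aeval_monomial, Finsupp.prod_fintype _ _ (by simp), Fin.prod_univ_two,
      IsScalarTower.algebraMap_apply k Ω (MvPolynomial (Fin 2) Ω), algebraMap_eq]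
    have h0 : (m - Finsupp.single 0 i : Ex) 0 = p ^ (t + 1) * l := by
      rw [Finsupp.tsub_apply, Finsupp.single_eq_same, hml]
      omega
    have h1 : (m - Finsupp.single 0 i : Ex) 1 = p ^ (t + 1) * n := by
      rw [Finsupp.tsub_apply, hn]
      simp
    rw [h0, h1]
    simp only [Matrix.cons_val_zero, Matrix.cons_val_one]
    rw [pow_mul, pow_mul]

end Pool.Agent.TWLG64
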