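import Pool.Agent.Lib.TWLG64.PlaneO
import Pool.Agent.Lib.TWLG76.Drop

/-!
# The plane lemma, integral form: good coordinates by truncation
-/

set_option autoImplicit false

namespace Pool.Agent.TWLG64

open MvPolynomial
open Pool.Agent.H15JM (RVal)
open Pool.Agent.D2 (Ctx0)
open Pool.Agent.TWM (Gt)
open Pool.Agent.TWLY
open Pool.Agent.TWLG76 (Sh Tr coeff_Tr_ge coeff_Tr_lt)

universe u

variable {k Ω : Type u} [Field k] [Field Ω] [Algebra k Ω] {v : RVal Ω}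

/-- **Good coordinates by truncation**, with the density from the weights below the top. -/
theorem exists_truncL (p : ℕ) [hp : Fact p.Prime] [CharP k p] [IsAlgClosed k]
    (hk : Ctx0 k v) {w₀ : ℝ} (hw0 : 0 ≤ w₀) {y₀ : Ω} (hy : 0 < w₀ → y₀ ≠ 0 ∧ v y₀ = - w₀)
    (hy' : w₀ = 0 → v.Ge 0 y₀) (Ψ : Polynomial Ω) :
    ∃ (f : Polynomial k) (w₁ : ℝ), f.coeff 0 = 0 ∧ 0 ≤ w₁ ∧
      (∀ j : ℕ, v.Ge (min 0 (-(w₁ - j * w₀))) ((Sh y₀ f Ψ).coeff j)) ∧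
      (w₁ < w₀ ∨ (w₀ = 0 ∧ w₁ = 0) ∨ (w₀ ≤ w₁ ∧ 0 < w₁ ∧
        (∃ j : ℕ, j * w₀ < w₁ ∧ (Sh y₀ f Ψ).coeff j ≠ 0 ∧
          v ((Sh y₀ f Ψ).coeff j) = -(w₁ - j * w₀)) ∧
        Siz v ![w₀, w₁] ![y₀, 0] (Tr w₀ w₁ (Sh y₀ f Ψ)) ∧
        DnsL k v ![w₀, w₁] ![y₀, 0] (Tr w₀ w₁ (Sh y₀ f Ψ)))) := by
  have : CharP Ω p := charP_of_injective_algebraMap (algebraMap k Ω).injective p
  obtain ⟨f, w₁, h1, h2, h3, h4⟩ := TWLG76.exists_trunc' p hk hw0 hy hy' Ψ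
  refine ⟨f, w₁, h1, h2, h3, ?_⟩
  rcases h4 with h4 | h4 | ⟨h4, h5, ⟨j, h6, h7, h8⟩, h9, h10⟩
  · exact Or.inl h4
  · exact Or.inr (Or.inl h4)
  refine Or.inr (Or.inr ⟨h4, h5, ⟨j, h6, h7, h8⟩, h9, ?_⟩)
  rcases hw0.eq_or_lt with h0 | h0
  · have e1 : (Polynomial.C ((![y₀, 0] : Fin 2 → Ω) 1) + Tr w₀ w₁ (Sh y₀ f Ψ)).coeff j =
        (Sh y₀ f Ψ).coeff j := by
      change (Polynomial.C (0 : Ω) + Tr w₀ w₁ (Sh y₀ f Ψ)).coeff j = (Sh y₀ f Ψ).coeff j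
      rw [map_zero, zero_add, coeff_Tr_lt h6]
    refine dnsL_zero p hk (w := ![w₀, w₁]) h0.symm h5 h9 (j₀ := j) ?_ ?_
    · rw [e1]
      exact h7
    · rw [e1, h8, ← h0, mul_zero, sub_zero]
      rfl
  · refine dnsL_of_dns hk (w := ![w₀, w₁]) h0 h5 h9 (fun i hi => ?_) h10
    have h11 : (Tr w₀ w₁ (Sh y₀ f Ψ)).coeff i = 0 := coeff_Tr_ge (by simpa using hi)
    rw [h11]
    exact Gt.zero

end Pool.Agent.TWLG64
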